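import Mathlib

/-!
Point-line configurations in coordinates: the point `(x, y)` lies on the (non-vertical) line
`(a, b)` when `y + b = a * x`.
-/

namespace H5NK

open Finset

/-- the point `p = (x, y)` lies on the line `l = (a, b)`, i.e. on `y = a x - b`. -/
def Inc (p l : ℝ × ℝ) : Prop := p.2 + l.2 = l.1 * p.1

open Classical in
/-- `P` and `L` form a configuration with `n` points and `n` lines, `k` on each. -/
structure Cfg (n k : ℕ) (P L : Finset (ℝ × ℝ)) : Prop where
  hP : P.card = n
  hL : L.card = n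
  hPk : ∀ p ∈ P, (L.filter (fun l => Inc p l)).card = k
  hLk : ∀ l ∈ L, (P.filter (fun p => Inc p l)).card = k

/-- existence of a coordinate configuration -/
def HasCfg (n k : ℕ) : Prop := ∃ P L, Cfg n k P L

open Classical in
theorem Cfg.of_indexed {α β : Type*} [Fintype α] [Fintype β] (f : α → ℝ × ℝ) (g : β → ℝ × ℝ)
    (hf : Function.Injective f) (hg : Function.Injective g) {n k : ℕ}
    (hα : Fintype.card α = n) (hβ : Fintype.card β = n)
    (h1 : ∀ a, ((univ : Finset β).filter (fun b => Inc (f a) (g b))).card = k)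
    (h2 : ∀ b, ((univ : Finset α).filter (fun a => Inc (f a) (g b))).card = k) :
    Cfg n k ((univ : Finset α).image f) ((univ : Finset β).image g) where
  hP := by rw [card_image_of_injective _ hf, card_univ, hα]
  hL := by rw [card_image_of_injective _ hg, card_univ, hβ]
  hPk := by
    intro p hp
    obtain ⟨a, -, rfl⟩ := mem_image.1 hp
    rw [filter_image, card_image_of_injective _ hg]
    exact h1 a
  hLk := by
    intro l hl
    obtain ⟨b, -, rfl⟩ := mem_image.1 hl
    rw [filter_image, card_image_of_injective _ hf]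
    exact h2 b

theorem hasCfg_zero (k : ℕ) : HasCfg 0 k :=
  ⟨∅, ∅, by simp, by simp, by simp, by simp⟩

/-- avoid a finite set of reals -/
theorem exists_avoid {F : Set ℝ} (hF : F.Finite) : ∃ t : ℝ, t ∉ F :=
  hF.infinite_compl.nonempty

theorem hasCfg_add {n n' k : ℕ} (h : HasCfg n k) (h' : HasCfg n' k) : HasCfg (n + n') k := by
  classical
  obtain ⟨P, L, H⟩ := h
  obtain ⟨P', L', H'⟩ := h'
  -- bad values of the vertical translation
  let F : Finset ℝ :=
    ((P ×ˢ L').image (fun z => z.1.2 + z.2.2 - z.2.1 * z.1.1)) ∪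
    ((P' ×ˢ L).image (fun z => z.2.1 * z.1.1 - z.1.2 - z.2.2)) ∪
    ((P ×ˢ P').image (fun z => z.1.2 - z.2.2)) ∪
    ((L ×ˢ L').image (fun z => z.2.2 - z.1.2))
  obtain ⟨d, hd⟩ := exists_avoid (F.finite_toSet)
  have hd' : d ∉ F := by simpa using hd
  simp only [F, mem_union, not_or, mem_image, mem_product, not_exists, not_and, and_imp,
    Prod.forall] at hd'
  obtain ⟨⟨⟨hd1, hd2⟩, hd3⟩, hd4⟩ := hd'
  let τ : ℝ × ℝ → ℝ × ℝ := fun p => (p.1, p.2 + d)
  let σ : ℝ × ℝ → ℝ × ℝ := fun l => (l.1, l.2 - d)
  have hτ : Function.Injective τ := by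
    rintro ⟨a, b⟩ ⟨a', b'⟩ h
    simp only [τ, Prod.mk.injEq] at h
    ext
    · exact h.1
    · simpa using h.2
  have hσ : Function.Injective σ := by
    rintro ⟨a, b⟩ ⟨a', b'⟩ h
    simp only [σ, Prod.mk.injEq] at h
    ext
    · exact h.1
    · simpa using h.2
  have hτσ : ∀ p l, Inc (τ p) (σ l) ↔ Inc p l := by
    intro p l
    simp only [Inc, τ, σ]
    constructor <;> intro h <;> linarith
  have hdP : Disjoint P (P'.image τ) := by
    rw [disjoint_left]
    rintro ⟨x, y⟩ hp hq
    obtain ⟨⟨x', y'⟩, hq', he⟩ := mem_image.1 hq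
    simp only [τ, Prod.mk.injEq] at he
    exact hd3 x y x' y' hp hq' (by linarith [he.2])
  have hdL : Disjoint L (L'.image σ) := by
    rw [disjoint_left]
    rintro ⟨x, y⟩ hp hq
    obtain ⟨⟨x', y'⟩, hq', he⟩ := mem_image.1 hq
    simp only [σ, Prod.mk.injEq] at he
    exact hd4 x y x' y' hp hq' (by linarith [he.2])
  refine ⟨P ∪ P'.image τ, L ∪ L'.image σ, ?_, ?_, ?_, ?_⟩
  · rw [card_union_of_disjoint hdP, card_image_of_injective _ hτ, H.hP, H'.hP]
  · rw [card_union_of_disjoint hdL, card_image_of_injective _ hσ, H.hL, H'.hL]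
  · intro p hp
    rw [filter_union]
    rcases mem_union.1 hp with hp | hp
    · have h2 : (L'.image σ).filter (fun l => Inc p l) = ∅ := by
        rw [filter_eq_empty_iff]
        rintro l hl hi
        obtain ⟨⟨a, b⟩, hl', rfl⟩ := mem_image.1 hl
        obtain ⟨x, y⟩ := p
        simp only [Inc, σ] at hi
        exact hd1 x y a b hp hl' (by linarith)
      rw [h2, union_empty]
      exact H.hPk p hp
    · obtain ⟨⟨x, y⟩, hp', rfl⟩ := mem_image.1 hp
      have h2 : L.filter (fun l => Inc (τ (x, y)) l) = ∅ := by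
        rw [filter_eq_empty_iff]
        rintro ⟨a, b⟩ hl hi
        simp only [Inc, τ] at hi
        exact hd2 x y a b hp' hl (by linarith)
      rw [h2, empty_union, filter_image, card_image_of_injective _ hσ]
      simp only [hτσ]
      exact H'.hPk _ hp'
  · intro l hl
    rw [filter_union]
    rcases mem_union.1 hl with hl | hl
    · have h2 : (P'.image τ).filter (fun p => Inc p l) = ∅ := by
        rw [filter_eq_empty_iff]
        rintro p hp hi
        obtain ⟨⟨x, y⟩, hp', rfl⟩ := mem_image.1 hp
        obtain ⟨a, b⟩ := l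
        simp only [Inc, τ] at hi
        exact hd2 x y a b hp' hl (by linarith)
      rw [h2, union_empty]
      exact H.hLk l hl
    · obtain ⟨⟨a, b⟩, hl', rfl⟩ := mem_image.1 hl
      have h2 : P.filter (fun p => Inc p (σ (a, b))) = ∅ := by
        rw [filter_eq_empty_iff]
        rintro ⟨x, y⟩ hp hi
        simp only [Inc, σ] at hi
        exact hd1 x y a b hp hl' (by linarith)
      rw [h2, empty_union, filter_image, card_image_of_injective _ hτ]
      simp only [hτσ]
      exact H'.hLk _ hl'

end H5NK
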