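import Pool.Agent.Lib.H5.NK.Basic

/-!
Geometric `(n_k)` configurations in the real plane.
-/

namespace H5NK

open Finset

/-- A line of the real plane `ℝ × ℝ`: the set of solutions `(x, y)` of an equation
`a x + b y = c` with `(a, b) ≠ (0, 0)`. -/
def IsLine (l : Set (ℝ × ℝ)) : Prop :=
  ∃ a b c : ℝ, (a ≠ 0 ∨ b ≠ 0) ∧ l = {p | a * p.1 + b * p.2 = c}

/-- `(P, L)` is a geometric `(n_k)` configuration: `P` is a set of `n` points of the real
plane, `L` is a set of `n` lines, every point of `P` lies on exactly `k` lines of `L`, and every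
line of `L` passes through exactly `k` points of `P`. -/
structure IsConfiguration (n k : ℕ) (P : Finset (ℝ × ℝ)) (L : Finset (Set (ℝ × ℝ))) : Prop where
  card_points : P.card = n
  card_lines : L.card = n
  lines : ∀ l ∈ L, IsLine l
  lines_through : ∀ p ∈ P, {l | l ∈ L ∧ p ∈ l}.ncard = k
  points_on : ∀ l ∈ L, {p | p ∈ P ∧ p ∈ l}.ncard = k

/-- The set of all `n ≥ 1` for which a geometric `(n_k)` configuration exists. -/
def N (k : ℕ) : Set ℕ := {n | 1 ≤ n ∧ ∃ P L, IsConfiguration n k P L}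

/-- the line `y = a x - b` as a set of points -/
def toLn (l : ℝ × ℝ) : Set (ℝ × ℝ) := {p | l.1 * p.1 + (-1) * p.2 = l.2}

theorem mem_toLn (p l : ℝ × ℝ) : p ∈ toLn l ↔ Inc p l := by
  unfold toLn Inc
  rw [Set.mem_ofPred_eq]
  constructor <;> intro h <;> linarith

theorem toLn_injective : Function.Injective toLn := by
  rintro ⟨a, b⟩ ⟨a', b'⟩ h
  have h1 : ((0, -b) : ℝ × ℝ) ∈ toLn (a', b') := by
    rw [← h, mem_toLn]
    simp [Inc]
  have h2 : ((1, a - b) : ℝ × ℝ) ∈ toLn (a', b') := by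
    rw [← h, mem_toLn]
    simp [Inc]
  rw [mem_toLn] at h1 h2
  simp only [Inc, mul_zero, mul_one] at h1 h2
  ext
  · show a = a'
    linarith
  · show b = b'
    linarith

theorem isLine_toLn (l : ℝ × ℝ) : IsLine (toLn l) :=
  ⟨l.1, -1, l.2, Or.inr (by norm_num), rfl⟩

theorem mem_N_of_hasCfg {n k : ℕ} (hn : 1 ≤ n) (h : HasCfg n k) : n ∈ N k := by
  classical
  obtain ⟨P, L, H⟩ := h
  refine ⟨hn, P, L.image toLn, ?_, ?_, ?_, ?_, ?_⟩
  · exact H.hP
  · rw [card_image_of_injective _ toLn_injective, H.hL]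
  · intro l hl
    obtain ⟨l, -, rfl⟩ := mem_image.1 hl
    exact isLine_toLn l
  · intro p hp
    have h1 : {l | l ∈ L.image toLn ∧ p ∈ l} =
        (((L.filter (fun l => Inc p l)).image toLn : Finset (Set (ℝ × ℝ))) : Set (Set (ℝ × ℝ))) := by
      ext l
      rw [Set.mem_ofPred_eq, mem_coe, mem_image, mem_image]
      constructor
      · rintro ⟨⟨l, hl, rfl⟩, h2⟩
        exact ⟨l, mem_filter.2 ⟨hl, (mem_toLn p l).1 h2⟩, rfl⟩
      · rintro ⟨l, hl, rfl⟩
        rw [mem_filter] at hl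
        exact ⟨⟨l, hl.1, rfl⟩, (mem_toLn p l).2 hl.2⟩
    rw [h1, Set.ncard_coe_finset, card_image_of_injective _ toLn_injective]
    exact H.hPk _ hp
  · intro l hl
    obtain ⟨l, hl', rfl⟩ := mem_image.1 hl
    have h1 : {p | p ∈ P ∧ p ∈ toLn l} =
        ((P.filter (fun p => Inc p l) : Finset (ℝ × ℝ)) : Set (ℝ × ℝ)) := by
      ext p
      rw [Set.mem_ofPred_eq, mem_coe, mem_filter, mem_toLn]
    rw [h1, Set.ncard_coe_finset]
    exact H.hLk _ hl'

end H5NK
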