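import Pool.Agent.Lib.H5.NK.Lift

/-!
A nearly regular system of points and lines in a lattice rectangle.

The points are those of `[0, k C) × [0, 2 k)`. For `i < k - 1` the lines of slope `2 / (2 i + 1)`
crossing the rectangle from the bottom to the top have exactly `k` points. A point `q` for which
this line leaves the rectangle through a side (so `q` is close to that side) gets instead a line of
slope `± 1 / c` through `q`, which also has exactly `k` points. The numbers `c` are chosen such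
that these new lines meet only at the points where they start.
-/

namespace H5NK.Grid

open Finset

/-- width of the zone at the sides -/
def zz (k : ℕ) : ℤ := ((k : ℤ) - 1) * (2 * k - 3)

/-- the line leaves through the left side -/
def LeftB (q : ℤ × ℤ) (i : ℕ) : Prop := q.1 < (q.2 / 2) * (2 * i + 1)

/-- the line leaves through the right side -/
def RightB (k C : ℕ) (q : ℤ × ℤ) (i : ℕ) : Prop :=
  (k : ℤ) * C ≤ q.1 + ((k : ℤ) - 1 - q.2 / 2) * (2 * i + 1)

/-- the line leaves through a side -/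
def Broken (k C : ℕ) (q : ℤ × ℤ) (i : ℕ) : Prop := LeftB q i ∨ RightB k C q i

/-- the index of the step -/
def ee (k : ℕ) (q : ℤ × ℤ) (i : ℕ) : ℤ := i + if (k : ℤ) ≤ q.2 then (k : ℤ) - 1 else 0

/-- the step -/
def cc (k C : ℕ) (q : ℤ × ℤ) (i : ℕ) : ℤ := C + zz k * ee k q i

open Classical in
/-- horizontal direction of the new line -/
noncomputable def sx (q : ℤ × ℤ) (i : ℕ) : ℤ := if LeftB q i then 1 else -1

/-- vertical direction of the new line -/
def sy (k : ℕ) (q : ℤ × ℤ) : ℤ := if (k : ℤ) ≤ q.2 then -1 else 1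

/-- the line through `q` with slope `s` -/
def thr (s : ℚ) (q : ℤ × ℤ) : ℚ × ℚ := (s, s * q.1 - q.2)

/-- slope of the old lines -/
def slV (i : ℕ) : ℚ := 2 / (2 * i + 1)

/-- slope of the new lines -/
noncomputable def slH (k C : ℕ) (q : ℤ × ℤ) (i : ℕ) : ℚ :=
  ((sx q i * sy k q : ℤ) : ℚ) / (cc k C q i : ℤ)

/-- the points -/
noncomputable def pts (k C : ℕ) : Finset (ℤ × ℤ) := Ico 0 ((k : ℤ) * C) ×ˢ Ico 0 (2 * (k : ℤ))

theorem mem_pts {k C : ℕ} {p : ℤ × ℤ} :
    p ∈ pts k C ↔ (0 ≤ p.1 ∧ p.1 < (k : ℤ) * C) ∧ (0 ≤ p.2 ∧ p.2 < 2 * (k : ℤ)) := by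
  unfold pts
  rw [mem_product, mem_Ico, mem_Ico]

theorem qinc_thr {s : ℚ} {p q : ℤ × ℤ} :
    QInc p (thr s q) ↔ (p.2 : ℚ) - q.2 = s * (p.1 - q.1) := by
  unfold QInc thr
  constructor <;> intro h <;> linarith

theorem qinc_self (s : ℚ) (p : ℤ × ℤ) : QInc p (thr s p) := by
  rw [qinc_thr]; ring

theorem thr_eq {s : ℚ} {p q : ℤ × ℤ} (h : QInc p (thr s q)) : thr s q = thr s p := by
  rw [qinc_thr] at h
  unfold thr
  ext
  · rfl
  · simp only
    linarith

theorem zz_pos {k : ℕ} (hk : 2 ≤ k) : 1 ≤ zz k := by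
  unfold zz
  have : (2 : ℤ) ≤ k := by exact_mod_cast hk
  nlinarith

theorem leftB_lt {k C : ℕ} (hk : 2 ≤ k) {q : ℤ × ℤ} {i : ℕ} (hq : q ∈ pts k C) (hi : i < k - 1)
    (h : LeftB q i) : q.1 < zz k := by
  obtain ⟨-, h1, h2⟩ := mem_pts.1 hq
  unfold LeftB at h
  unfold zz
  have h3 : q.2 / 2 ≤ (k : ℤ) - 1 := by omega
  have h4 : (2 * (i : ℤ) + 1) ≤ 2 * k - 3 := by omega
  have h5 : 0 ≤ q.2 / 2 := by omega
  have h6 : (q.2 / 2) * (2 * (i : ℤ) + 1) ≤ ((k : ℤ) - 1) * (2 * k - 3) :=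
    mul_le_mul h3 h4 (by omega) (by omega)
  linarith

theorem rightB_ge {k C : ℕ} (hk : 2 ≤ k) {q : ℤ × ℤ} {i : ℕ} (hq : q ∈ pts k C) (hi : i < k - 1)
    (h : RightB k C q i) : (k : ℤ) * C - zz k ≤ q.1 := by
  obtain ⟨-, h1, h2⟩ := mem_pts.1 hq
  unfold RightB at h
  unfold zz
  have h3 : (k : ℤ) - 1 - q.2 / 2 ≤ (k : ℤ) - 1 := by omega
  have h4 : (2 * (i : ℤ) + 1) ≤ 2 * k - 3 := by omega
  have h6 : ((k : ℤ) - 1 - q.2 / 2) * (2 * (i : ℤ) + 1) ≤ ((k : ℤ) - 1) * (2 * k - 3) :=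
    mul_le_mul h3 h4 (by omega) (by omega)
  linarith

theorem ee_bounds {k : ℕ} (hk : 2 ≤ k) (q : ℤ × ℤ) {i : ℕ} (hi : i < k - 1) :
    0 ≤ ee k q i ∧ ee k q i ≤ 2 * k - 3 := by
  unfold ee
  split_ifs <;> omega

theorem ee_inj {k : ℕ} (hk : 2 ≤ k) {q q' : ℤ × ℤ} {i i' : ℕ} (hi : i < k - 1) (hi' : i' < k - 1)
    (h : ee k q i = ee k q' i') : i = i' ∧ sy k q = sy k q' := by
  unfold ee at h
  unfold sy
  split_ifs at h ⊢ <;> (constructor <;> omega)

theorem cc_ge {k C : ℕ} (hk : 2 ≤ k) (q : ℤ × ℤ) {i : ℕ} (hi : i < k - 1) : (C : ℤ) ≤ cc k C q i := by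
  unfold cc
  have := (ee_bounds hk q hi).1
  have := zz_pos hk
  nlinarith

theorem cc_le {k C : ℕ} (hk : 2 ≤ k) (q : ℤ × ℤ) {i : ℕ} (hi : i < k - 1) :
    ((k : ℤ) - 1) * cc k C q i ≤ ((k : ℤ) - 1) * C + zz k * zz k := by
  unfold cc
  have h1 := (ee_bounds hk q hi).2
  have h2 := zz_pos hk
  have h3 : (k : ℤ) - 1 ≥ 0 := by omega
  have h4 : zz k * ee k q i ≤ zz k * (2 * k - 3) := mul_le_mul_of_nonneg_left h1 (by linarith)
  have h5 : ((k : ℤ) - 1) * (zz k * ee k q i) ≤ ((k : ℤ) - 1) * (zz k * (2 * k - 3)) :=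
    mul_le_mul_of_nonneg_left h4 h3
  have h6 : ((k : ℤ) - 1) * (zz k * (2 * k - 3)) = zz k * zz k := by
    unfold zz; ring
  linarith

theorem sx_cases (q : ℤ × ℤ) (i : ℕ) : sx q i = 1 ∨ sx q i = -1 := by
  unfold sx; split_ifs <;> simp

theorem sy_cases (k : ℕ) (q : ℤ × ℤ) : sy k q = 1 ∨ sy k q = -1 := by
  unfold sy; split_ifs <;> simp

/-- the `m`-th point of the new line starting at `q` -/
noncomputable def hp (k C : ℕ) (q : ℤ × ℤ) (i : ℕ) (m : ℤ) : ℤ × ℤ :=
  (q.1 + sx q i * (cc k C q i * m), q.2 + sy k q * m)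

/-- the position of a starting point -/
theorem start_pos {k C : ℕ} (hk : 2 ≤ k) {q : ℤ × ℤ} {i : ℕ} (hq : q ∈ pts k C) (hi : i < k - 1)
    (h : Broken k C q i) :
    (sx q i = 1 ∧ q.1 < zz k) ∨ (sx q i = -1 ∧ (k : ℤ) * C - zz k ≤ q.1) := by
  by_cases hl : LeftB q i
  · left
    exact ⟨by unfold sx; rw [if_pos hl], leftB_lt hk hq hi hl⟩
  · right
    exact ⟨by unfold sx; rw [if_neg hl], rightB_ge hk hq hi (h.resolve_left hl)⟩

section
variable {k C : ℕ} (hk : 2 ≤ k) (hC : zz k * (zz k + 2) ≤ C)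
include hk hC

theorem c_ge_z : 3 * zz k ≤ C := by
  have := zz_pos hk
  nlinarith

/-- points of a new line in the rectangle -/
theorem hline_iff {p q : ℤ × ℤ} {i : ℕ} (hp' : p ∈ pts k C) (hq : q ∈ pts k C) (hi : i < k - 1)
    (h : Broken k C q i) :
    QInc p (thr (slH k C q i) q) ↔ ∃ m : ℕ, m < k ∧ p = hp k C q i m := by
  have hz := zz_pos hk
  have hc := cc_ge (C := C) hk q hi
  have hC3 := c_ge_z hk hC
  have hc0 : 0 < cc k C q i := by linarith
  have hc0' : (cc k C q i : ℚ) ≠ 0 := by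
    have : (0 : ℚ) < (cc k C q i : ℤ) := by exact_mod_cast hc0
    exact this.ne'
  have hsx : sx q i * sx q i = 1 := by rcases sx_cases q i with h | h <;> rw [h] <;> norm_num
  have hsy : sy k q * sy k q = 1 := by rcases sy_cases k q with h | h <;> rw [h] <;> norm_num
  obtain ⟨⟨hp1, hp2⟩, hp3, hp4⟩ := mem_pts.1 hp'
  obtain ⟨⟨hq1, hq2⟩, hq3, hq4⟩ := mem_pts.1 hq
  rw [qinc_thr]
  constructor
  · intro h1
    -- clear denominators
    have h2 : cc k C q i * (p.2 - q.2) = sx q i * sy k q * (p.1 - q.1) := by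
      unfold slH at h1
      have h3 : (cc k C q i : ℚ) * ((p.2 : ℚ) - q.2) =
          ((sx q i * sy k q : ℤ) : ℚ) * ((p.1 : ℚ) - q.1) := by
        rw [h1]; field_simp
      exact_mod_cast h3
    set m : ℤ := sy k q * (p.2 - q.2) with hm
    have e2 : p.2 = q.2 + sy k q * m := by
      rw [hm, ← mul_assoc, hsy]; ring
    have e1 : p.1 = q.1 + sx q i * (cc k C q i * m) := by
      have : sx q i * (cc k C q i * m) = sx q i * sy k q * (cc k C q i * (p.2 - q.2)) := by
        rw [hm]; ring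
      rw [this, h2]
      have : sx q i * sy k q * (sx q i * sy k q * (p.1 - q.1)) =
        (sx q i * sx q i) * (sy k q * sy k q) * (p.1 - q.1) := by ring
      rw [this, hsx, hsy]; ring
    have hm0 : 0 ≤ m := by
      by_contra hneg
      have hneg' : m ≤ -1 := by omega
      have h3 : cc k C q i * m ≤ cc k C q i * (-1) := mul_le_mul_of_nonneg_left hneg' hc0.le
      rcases start_pos hk hq hi h with ⟨s1, s2⟩ | ⟨s1, s2⟩
      · rw [s1] at e1
        linarith
      · rw [s1] at e1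
        linarith
    have hmk : m < k := by
      by_contra hge
      have hge' : (k : ℤ) ≤ m := by omega
      have h3 : cc k C q i * k ≤ cc k C q i * m := mul_le_mul_of_nonneg_left hge' hc0.le
      have h4 : (C : ℤ) * k ≤ cc k C q i * k := mul_le_mul_of_nonneg_right hc (by omega)
      have h5 : (C : ℤ) * k = k * C := mul_comm _ _
      rcases start_pos hk hq hi h with ⟨s1, s2⟩ | ⟨s1, s2⟩
      · rw [s1] at e1
        linarith
      · rw [s1] at e1
        linarith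
    refine ⟨m.toNat, by omega, ?_⟩
    have h6 : ((m.toNat : ℕ) : ℤ) = m := Int.toNat_of_nonneg hm0
    unfold hp
    rw [h6]
    exact Prod.ext e1 e2
  · rintro ⟨m, -, rfl⟩
    unfold hp slH
    push_cast
    have e3 : (sx q i : ℚ) * sx q i = 1 := by exact_mod_cast hsx
    have e4 : (sx q i : ℚ) * sy k q / (cc k C q i) * (q.1 + sx q i * (cc k C q i * m) - q.1) =
        (sx q i : ℚ) * sx q i * (sy k q * m) := by
      field_simp
      ring
    rw [e4, e3]
    ring

/-- the point number `m` of a new line is in the rectangle -/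
theorem hp_mem {q : ℤ × ℤ} {i : ℕ} (hq : q ∈ pts k C) (hi : i < k - 1)
    (h : Broken k C q i) {m : ℕ} (hm : m < k) : hp k C q i m ∈ pts k C := by
  have hz := zz_pos hk
  have hc := cc_ge (C := C) hk q hi
  have hcl := cc_le (C := C) hk q hi
  have hC3 := c_ge_z hk hC
  obtain ⟨⟨hq1, hq2⟩, hq3, hq4⟩ := mem_pts.1 hq
  have h0 : 0 ≤ cc k C q i * m := mul_nonneg (by linarith) (by positivity)
  have h1 : cc k C q i * m ≤ cc k C q i * (k - 1) :=
    mul_le_mul_of_nonneg_left (by omega) (by linarith)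
  have h2 : cc k C q i * ((k : ℤ) - 1) = ((k : ℤ) - 1) * cc k C q i := mul_comm _ _
  have h3 : cc k C q i * m ≤ k * C - 2 * zz k := by nlinarith
  rw [mem_pts]
  unfold hp
  simp only
  constructor
  · rcases start_pos hk hq hi h with ⟨s1, s2⟩ | ⟨s1, s2⟩
    · rw [s1]
      constructor <;> linarith
    · rw [s1]
      constructor <;> linarith
  · unfold sy
    split_ifs with hs <;> constructor <;> omega

/-- number of points on a new line -/
theorem card_hline {q : ℤ × ℤ} {i : ℕ} (hq : q ∈ pts k C) (hi : i < k - 1)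
    (h : Broken k C q i) [DecidablePred (fun p => QInc p (thr (slH k C q i) q))] :
    ((pts k C).filter (fun p => QInc p (thr (slH k C q i) q))).card = k := by
  have e : (pts k C).filter (fun p => QInc p (thr (slH k C q i) q)) =
      (range k).image (fun m : ℕ => hp k C q i m) := by
    ext p
    rw [mem_filter, mem_image]
    constructor
    · rintro ⟨h1, h2⟩
      obtain ⟨m, hm, e⟩ := (hline_iff hk hC h1 hq hi h).1 h2
      exact ⟨m, mem_range.2 hm, e.symm⟩
    · rintro ⟨m, hm, rfl⟩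
      have h1 := hp_mem hk hC hq hi h (mem_range.1 hm)
      exact ⟨h1, (hline_iff hk hC h1 hq hi h).2 ⟨m, mem_range.1 hm, rfl⟩⟩
  rw [e, card_image_of_injective, card_range]
  intro m m' hmm
  have h2 : q.2 + sy k q * (m : ℤ) = q.2 + sy k q * m' := congrArg Prod.snd hmm
  rcases sy_cases k q with h3 | h3 <;> rw [h3] at h2 <;> omega

omit hC in
/-- points of an old line in the rectangle -/
theorem vline_iff {p q : ℤ × ℤ} {i : ℕ} (hp' : p ∈ pts k C) (hq : q ∈ pts k C) :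
    QInc p (thr (slV i) q) ↔
      ∃ m : ℕ, m < k ∧ p = (q.1 + ((m : ℤ) - q.2 / 2) * (2 * i + 1), q.2 + 2 * ((m : ℤ) - q.2 / 2)) := by
  obtain ⟨⟨hp1, hp2⟩, hp3, hp4⟩ := mem_pts.1 hp'
  obtain ⟨⟨hq1, hq2⟩, hq3, hq4⟩ := mem_pts.1 hq
  have hi0 : ((2 : ℚ) * i + 1) ≠ 0 := by positivity
  rw [qinc_thr]
  constructor
  · intro h1
    have h2 : (2 * (i : ℤ) + 1) * (p.2 - q.2) = 2 * (p.1 - q.1) := by
      unfold slV at h1
      have h3 : ((2 : ℚ) * i + 1) * ((p.2 : ℚ) - q.2) = 2 * ((p.1 : ℚ) - q.1) := by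
        rw [h1]; field_simp
      exact_mod_cast h3
    set t : ℤ := (p.1 - q.1) - i * (p.2 - q.2) with ht
    have e2 : p.2 = q.2 + 2 * t := by rw [ht]; linarith
    have e1 : p.1 = q.1 + t * (2 * i + 1) := by
      have : t * (2 * i + 1) = 2 * t * i + t := by ring
      rw [this]
      have h4 : 2 * t = p.2 - q.2 := by linarith
      rw [h4, ht]; ring
    refine ⟨(t + q.2 / 2).toNat, by omega, ?_⟩
    have h6 : (((t + q.2 / 2).toNat : ℕ) : ℤ) = t + q.2 / 2 := Int.toNat_of_nonneg (by omega)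
    rw [h6]
    ext
    · simp only
      rw [e1]; ring
    · simp only
      rw [e2]; ring
  · rintro ⟨m, -, rfl⟩
    unfold slV
    push_cast
    field_simp
    ring

omit hC in
theorem not_broken_of_vline {p q : ℤ × ℤ} {i : ℕ} (hp' : p ∈ pts k C) (hq : q ∈ pts k C)
    (h : ¬ Broken k C q i) (hpq : QInc p (thr (slV i) q)) : ¬ Broken k C p i := by
  obtain ⟨m, hm, rfl⟩ := (vline_iff hk hp' hq).1 hpq
  unfold Broken LeftB RightB at *
  simp only at *
  have e : (q.2 + 2 * ((m : ℤ) - q.2 / 2)) / 2 = m := by omega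
  rw [e]
  push Not at h ⊢
  constructor
  · nlinarith [h.1]
  · nlinarith [h.2]

omit hk hC in
theorem vp_mem {q : ℤ × ℤ} {i : ℕ} (hq : q ∈ pts k C) (h : ¬ Broken k C q i) {m : ℕ}
    (hm : m < k) :
    ((q.1 + ((m : ℤ) - q.2 / 2) * (2 * i + 1), q.2 + 2 * ((m : ℤ) - q.2 / 2)) : ℤ × ℤ) ∈ pts k C := by
  obtain ⟨⟨hq1, hq2⟩, hq3, hq4⟩ := mem_pts.1 hq
  unfold Broken LeftB RightB at h
  push Not at h
  rw [mem_pts]
  simp only
  have h1 : 0 ≤ (m : ℤ) * (2 * i + 1) := by positivity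
  have h2 : ((m : ℤ) - (k - 1)) * (2 * i + 1) ≤ 0 :=
    mul_nonpos_of_nonpos_of_nonneg (by omega) (by positivity)
  refine ⟨⟨by nlinarith [h.1], by nlinarith [h.2]⟩, by omega, by omega⟩

omit hC in
/-- number of points on an old line -/
theorem card_vline {q : ℤ × ℤ} {i : ℕ} (hq : q ∈ pts k C)
    (h : ¬ Broken k C q i) [DecidablePred (fun p => QInc p (thr (slV i) q))] :
    ((pts k C).filter (fun p => QInc p (thr (slV i) q))).card = k := by
  have e : (pts k C).filter (fun p => QInc p (thr (slV i) q)) =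
      (range k).image (fun m : ℕ =>
        ((q.1 + ((m : ℤ) - q.2 / 2) * (2 * i + 1), q.2 + 2 * ((m : ℤ) - q.2 / 2)) : ℤ × ℤ)) := by
    ext p
    rw [mem_filter, mem_image]
    constructor
    · rintro ⟨h1, h2⟩
      obtain ⟨m, hm, e⟩ := (vline_iff hk h1 hq).1 h2
      exact ⟨m, mem_range.2 hm, e.symm⟩
    · rintro ⟨m, hm, rfl⟩
      have h1 := vp_mem hq h (mem_range.1 hm)
      exact ⟨h1, (vline_iff hk h1 hq).2 ⟨m, mem_range.1 hm, rfl⟩⟩
  rw [e, card_image_of_injective, card_range]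
  intro m m' hmm
  have h2 : q.2 + 2 * ((m : ℤ) - q.2 / 2) = q.2 + 2 * ((m' : ℤ) - q.2 / 2) := congrArg Prod.snd hmm
  omega

/-- points other than the start of a new line are far from the sides -/
theorem far_of_hline {q : ℤ × ℤ} {i : ℕ} (hq : q ∈ pts k C) (hi : i < k - 1)
    (h : Broken k C q i) {m : ℕ} (hm : m < k) (hm0 : m ≠ 0) :
    zz k ≤ (hp k C q i m).1 ∧ (hp k C q i m).1 < k * C - zz k := by
  have hz := zz_pos hk
  have hc := cc_ge (C := C) hk q hi
  have hcl := cc_le (C := C) hk q hi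
  have hC3 := c_ge_z hk hC
  obtain ⟨⟨hq1, hq2⟩, hq3, hq4⟩ := mem_pts.1 hq
  have h0 : cc k C q i * 1 ≤ cc k C q i * m := mul_le_mul_of_nonneg_left (by omega) (by linarith)
  have h1 : cc k C q i * m ≤ cc k C q i * (k - 1) :=
    mul_le_mul_of_nonneg_left (by omega) (by linarith)
  have h2 : cc k C q i * ((k : ℤ) - 1) = ((k : ℤ) - 1) * cc k C q i := mul_comm _ _
  have h3 : cc k C q i * m ≤ k * C - 2 * zz k := by nlinarith
  unfold hp
  simp only
  rcases start_pos hk hq hi h with ⟨s1, s2⟩ | ⟨s1, s2⟩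
  · rw [s1]
    constructor <;> linarith
  · rw [s1]
    constructor <;> linarith

omit hC in
theorem not_broken_of_far {p : ℤ × ℤ} (hp' : p ∈ pts k C) (h1 : zz k ≤ p.1)
    (h2 : p.1 < k * C - zz k) {i : ℕ} (hi : i < k - 1) : ¬ Broken k C p i := by
  rintro (h | h)
  · have := leftB_lt hk hp' hi h
    linarith
  · have := rightB_ge hk hp' hi h
    linarith

omit hC in
theorem same_side_aux {e e' : ℤ} (he : e ≤ 2 * k - 3) (he0' : 0 ≤ e')
    (hC' : zz k * (zz k + 2) ≤ C) {m m' : ℕ}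
    (hm : m < k) (hlt : m < m')
    (h : ((C : ℤ) + zz k * e') * m' - ((C : ℤ) + zz k * e) * m < zz k) : False := by
  have hz := zz_pos hk
  have g1 : (C : ℤ) * 1 ≤ C * ((m' : ℤ) - m) := mul_le_mul_of_nonneg_left (by omega) (by positivity)
  have g2 : e * m ≤ (2 * k - 3) * (k - 1) := mul_le_mul he (by omega) (by positivity) (by omega)
  have g3 : zz k * (e * m) ≤ zz k * ((2 * k - 3) * (k - 1)) :=
    mul_le_mul_of_nonneg_left g2 (by linarith)
  have g4 : (2 * (k : ℤ) - 3) * (k - 1) = zz k := by unfold zz; ring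
  rw [g4] at g3
  have g5 : 0 ≤ zz k * (e' * m') := mul_nonneg (by linarith) (mul_nonneg he0' (by positivity))
  have g6 : ((C : ℤ) + zz k * e') * m' - ((C : ℤ) + zz k * e) * m =
      C * ((m' : ℤ) - m) - zz k * (e * m) + zz k * (e' * m') := by ring
  have g7 : zz k * (zz k + 2) = zz k * zz k + 2 * zz k := by ring
  linarith

omit hC in
theorem same_side {e e' : ℤ} (he0 : 0 ≤ e) (he : e ≤ 2 * k - 3) (he0' : 0 ≤ e')
    (he' : e' ≤ 2 * k - 3) (hC' : zz k * (zz k + 2) ≤ C) {m m' : ℕ}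
    (hm : m < k) (hm' : m' < k) (hm0 : m ≠ 0)
    (h1 : ((C : ℤ) + zz k * e') * m' - ((C : ℤ) + zz k * e) * m < zz k)
    (h2 : -zz k < ((C : ℤ) + zz k * e') * m' - ((C : ℤ) + zz k * e) * m) : m = m' ∧ e = e' := by
  have hz := zz_pos hk
  have hmm : m = m' := by
    by_contra hne
    rcases lt_or_gt_of_ne hne with hlt | hgt
    · exact same_side_aux hk he he0' hC' hm hlt h1
    · exact same_side_aux hk he' he0 hC' hm' hgt (by linarith)
  subst hmm
  refine ⟨rfl, ?_⟩
  have g6 : ((C : ℤ) + zz k * e') * m - ((C : ℤ) + zz k * e) * m = zz k * ((e' - e) * m) := by ring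
  rw [g6] at h1 h2
  have g7 : (e' - e) * (m : ℤ) = 0 := by
    have a1 : (e' - e) * (m : ℤ) < 1 := by
      by_contra hge
      have := mul_le_mul_of_nonneg_left (not_lt.1 hge) (by linarith : 0 ≤ zz k)
      linarith
    have a2 : -1 < (e' - e) * (m : ℤ) := by
      by_contra hge
      have := mul_le_mul_of_nonneg_left (not_lt.1 hge) (by linarith : 0 ≤ zz k)
      linarith
    omega
  have hm1 : (m : ℤ) ≠ 0 := by exact_mod_cast hm0
  have := (mul_eq_zero.1 g7).resolve_right hm1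
  linarith

omit hC in
theorem opp_side {e e' : ℤ} (he0 : 0 ≤ e) (he : e ≤ 2 * k - 3) (he0' : 0 ≤ e')
    (he' : e' ≤ 2 * k - 3) (hC' : zz k * (zz k + 2) ≤ C) {m m' : ℕ} {a b : ℤ}
    (ha : a < zz k) (ha0 : 0 ≤ a) (hb : (k : ℤ) * C - zz k ≤ b) (hb1 : b < k * C)
    (hab : b - a = ((C : ℤ) + zz k * e) * m + ((C : ℤ) + zz k * e') * m') : False := by
  have hz := zz_pos hk
  rcases le_or_gt k (m + m') with hle | hgt
  · have g1 : 0 ≤ zz k * (e * m) := mul_nonneg (by linarith) (mul_nonneg he0 (by positivity))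
    have g2 : 0 ≤ zz k * (e' * m') := mul_nonneg (by linarith) (mul_nonneg he0' (by positivity))
    have g3 : (C : ℤ) * k ≤ C * (m + m') := mul_le_mul_of_nonneg_left (by omega) (by positivity)
    have g4 : ((C : ℤ) + zz k * e) * m + ((C : ℤ) + zz k * e') * m' =
      C * (m + m') + zz k * (e * m) + zz k * (e' * m') := by ring
    have g5 : (C : ℤ) * k = k * C := mul_comm _ _
    linarith
  · have g1 : (C : ℤ) + zz k * e ≤ C + zz k * (2 * k - 3) := by
      have := mul_le_mul_of_nonneg_left he (by linarith : 0 ≤ zz k)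
      linarith
    have g2 : (C : ℤ) + zz k * e' ≤ C + zz k * (2 * k - 3) := by
      have := mul_le_mul_of_nonneg_left he' (by linarith : 0 ≤ zz k)
      linarith
    have g3 := mul_le_mul_of_nonneg_right g1 (by positivity : (0 : ℤ) ≤ m)
    have g4 := mul_le_mul_of_nonneg_right g2 (by positivity : (0 : ℤ) ≤ m')
    have g5 : 0 ≤ (C : ℤ) + zz k * (2 * k - 3) := by
      have : 0 ≤ zz k * (2 * (k : ℤ) - 3) := mul_nonneg (by linarith) (by omega)
      positivity
    have g6 : ((C : ℤ) + zz k * (2 * k - 3)) * (m + m') ≤ ((C : ℤ) + zz k * (2 * k - 3)) * (k - 1) :=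
      mul_le_mul_of_nonneg_left (by omega) g5
    have g7 : ((C : ℤ) + zz k * (2 * k - 3)) * (k - 1) = k * C - C + zz k * zz k := by
      unfold zz; ring
    have g8 : ((C : ℤ) + zz k * (2 * k - 3)) * (m + m') = ((C : ℤ) + zz k * (2 * k - 3)) * m +
      ((C : ℤ) + zz k * (2 * k - 3)) * m' := by ring
    have g9 : zz k * (zz k + 2) = zz k * zz k + 2 * zz k := by ring
    linarith

/-- two new lines meet only at their starting points -/
theorem hline_unique {q q' : ℤ × ℤ} {i i' : ℕ} (hq : q ∈ pts k C) (hi : i < k - 1)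
    (h : Broken k C q i) (hq' : q' ∈ pts k C) (hi' : i' < k - 1) (h' : Broken k C q' i')
    {m m' : ℕ} (hm : m < k) (hm' : m' < k) (hm0 : m ≠ 0)
    (he : hp k C q i m = hp k C q' i' m') : q = q' ∧ i = i' := by
  obtain ⟨⟨hq1, hq2⟩, -, -⟩ := mem_pts.1 hq
  obtain ⟨⟨hq1', hq2'⟩, -, -⟩ := mem_pts.1 hq'
  obtain ⟨b1, b2⟩ := ee_bounds hk q hi
  obtain ⟨b1', b2'⟩ := ee_bounds hk q' hi'
  have e1 : q.1 + sx q i * (cc k C q i * m) = q'.1 + sx q' i' * (cc k C q' i' * m') :=
    congrArg Prod.fst he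
  have e2 : q.2 + sy k q * (m : ℤ) = q'.2 + sy k q' * (m' : ℤ) := congrArg Prod.snd he
  unfold cc at e1
  have fin : m = m' ∧ ee k q i = ee k q' i' → sx q i = sx q' i' → q = q' ∧ i = i' := by
    rintro ⟨hmm, hee⟩ hs
    obtain ⟨g9, g10⟩ := ee_inj hk hi hi' hee
    rw [hmm, hee, hs] at e1
    rw [hmm, g10] at e2
    exact ⟨Prod.ext (by linarith) (by linarith), g9⟩
  rcases start_pos hk hq hi h with ⟨s1, s2⟩ | ⟨s1, s2⟩ <;>
    rcases start_pos hk hq' hi' h' with ⟨t1, t2⟩ | ⟨t1, t2⟩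
  · apply fin _ (by rw [s1, t1])
    rw [s1, t1] at e1
    exact same_side hk b1 b2 b1' b2' hC hm hm' hm0 (by linarith) (by linarith)
  · rw [s1, t1] at e1
    exact (opp_side hk b1 b2 b1' b2' hC (m := m) (m' := m') s2 hq1 t2 hq2' (by linarith)).elim
  · rw [s1, t1] at e1
    exact (opp_side hk b1 b2 b1' b2' hC (m := m) (m' := m') t2 hq1' s2 hq2 (by linarith)).elim
  · apply fin _ (by rw [s1, t1])
    rw [s1, t1] at e1
    exact same_side hk b1 b2 b1' b2' hC hm hm' hm0 (by linarith) (by linarith)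

end

end H5NK.Grid
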