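import Pool.Agent.Lib.H5.NK.Grid

/-!
The line system of the lattice rectangle: every line has `k` points, every point has `k - 1` or `k`
lines, and most points have `k - 1` lines.
-/

namespace H5NK.Grid

open Finset

open Classical in
/-- slope of the line number `i` through `q` -/
noncomputable def sl (k C : ℕ) (q : ℤ × ℤ) (i : ℕ) : ℚ :=
  if Broken k C q i then slH k C q i else slV i

open Classical in
/-- the lines -/
noncomputable def lns (k C : ℕ) : Finset (ℚ × ℚ) :=
  (pts k C ×ˢ range (k - 1)).image (fun z => thr (sl k C z.1 z.2) z.1)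

theorem mem_lns {k C : ℕ} {l : ℚ × ℚ} :
    l ∈ lns k C ↔ ∃ q i, q ∈ pts k C ∧ i < k - 1 ∧ l = thr (sl k C q i) q := by
  unfold lns
  rw [mem_image]
  constructor
  · rintro ⟨⟨q, i⟩, h, rfl⟩
    rw [mem_product, mem_range] at h
    exact ⟨q, i, h.1, h.2, rfl⟩
  · rintro ⟨q, i, h1, h2, rfl⟩
    exact ⟨(q, i), by rw [mem_product, mem_range]; exact ⟨h1, h2⟩, rfl⟩

theorem slV_inj {i j : ℕ} (h : slV i = slV j) : i = j := by
  unfold slV at h
  have h1 : ((2 : ℚ) * i + 1) ≠ 0 := by positivity
  have h2 : ((2 : ℚ) * j + 1) ≠ 0 := by positivity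
  field_simp at h
  have h3 : (i : ℚ) = j := by linarith
  exact_mod_cast h3

section
variable {k C : ℕ} (hk : 2 ≤ k) (hC : zz k * (zz k + 2) ≤ C)
include hk hC

theorem cc_pos (q : ℤ × ℤ) {i : ℕ} (hi : i < k - 1) : 0 < cc k C q i := by
  have h1 := c_ge_z hk hC
  have h2 := zz_pos hk
  have h3 := cc_ge (C := C) hk q hi
  linarith

theorem slV_ne_slH (q : ℤ × ℤ) {i j : ℕ} (hi : i < k - 1) : slV j ≠ slH k C q i := by
  intro h
  have hc := cc_pos hk hC q hi
  have hc' : ((cc k C q i : ℤ) : ℚ) ≠ 0 := by exact_mod_cast hc.ne'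
  unfold slV slH at h
  have h1 : ((2 : ℚ) * j + 1) ≠ 0 := by positivity
  rw [div_eq_div_iff h1 hc'] at h
  have h2 : 2 * cc k C q i = (sx q i * sy k q) * (2 * j + 1) := by exact_mod_cast h
  rcases sx_cases q i with h3 | h3 <;> rcases sy_cases k q with h4 | h4 <;>
    rw [h3, h4] at h2 <;> omega

theorem slH_inj (q : ℤ × ℤ) {i j : ℕ} (hi : i < k - 1) (hj : j < k - 1)
    (h : slH k C q i = slH k C q j) : i = j := by
  have hc := cc_pos hk hC q hi
  have hc' : ((cc k C q i : ℤ) : ℚ) ≠ 0 := by exact_mod_cast hc.ne'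
  have hd := cc_pos hk hC q hj
  have hd' : ((cc k C q j : ℤ) : ℚ) ≠ 0 := by exact_mod_cast hd.ne'
  unfold slH at h
  rw [div_eq_div_iff hc' hd'] at h
  have h2 : (sx q i * sy k q) * cc k C q j = (sx q j * sy k q) * cc k C q i := by
    exact_mod_cast h
  have h3 : cc k C q i = cc k C q j := by
    rcases sx_cases q i with h3 | h3 <;> rcases sy_cases k q with h4 | h4 <;>
      rcases sx_cases q j with h5 | h5 <;>
      rw [h3, h4, h5] at h2 <;> linarith
  unfold cc at h3
  have h4 : zz k * ee k q i = zz k * ee k q j := by linarith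
  have hz := zz_pos hk
  have h5 : ee k q i = ee k q j := mul_left_cancel₀ (by linarith) h4
  exact (ee_inj hk hi hj h5).1

theorem sl_inj (q : ℤ × ℤ) {i j : ℕ} (hi : i < k - 1) (hj : j < k - 1)
    (h : sl k C q i = sl k C q j) : i = j := by
  unfold sl at h
  split_ifs at h with h1 h2 h2
  · exact slH_inj hk hC q hi hj h
  · exact absurd h.symm (slV_ne_slH hk hC q hi)
  · exact absurd h (slV_ne_slH hk hC q hj)
  · exact slV_inj h

open Classical in
theorem card_line {l : ℚ × ℚ} (hl : l ∈ lns k C) :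
    ((pts k C).filter (fun p => QInc p l)).card = k := by
  obtain ⟨q, i, hq, hi, rfl⟩ := mem_lns.1 hl
  unfold sl
  split_ifs with h
  · exact card_hline hk hC hq hi h
  · exact card_vline hk hq h

/-- the point `p` is on a new line starting elsewhere -/
def Hit (k C : ℕ) (p : ℤ × ℤ) : Prop :=
  ∃ q i m, q ∈ pts k C ∧ i < k - 1 ∧ Broken k C q i ∧ m < k ∧ m ≠ 0 ∧ p = hp k C q i m

open Classical in
theorem card_hit {p : ℤ × ℤ} (hp' : p ∈ pts k C) (h : Hit k C p) :
    ((lns k C).filter (QInc p)).card = k := by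
  obtain ⟨q, i, m, hq, hi, hb, hm, hm0, rfl⟩ := h
  set p := hp k C q i m with hpdef
  have hfar := far_of_hline hk hC hq hi hb hm hm0
  have hnb : ∀ j, j < k - 1 → ¬ Broken k C p j := fun j hj =>
    not_broken_of_far hk hp' hfar.1 hfar.2 hj
  have hinc : QInc p (thr (slH k C q i) q) := (hline_iff hk hC hp' hq hi hb).2 ⟨m, hm, rfl⟩
  have e : (lns k C).filter (QInc p) =
      insert (thr (slH k C q i) q) ((range (k - 1)).image (fun j => thr (slV j) p)) := by
    ext l
    rw [mem_filter, mem_insert, mem_image]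
    constructor
    · rintro ⟨h1, h2⟩
      obtain ⟨q', j, hq', hj, rfl⟩ := mem_lns.1 h1
      by_cases hb' : Broken k C q' j
      · left
        unfold sl at h2 ⊢
        rw [if_pos hb'] at h2 ⊢
        obtain ⟨m', hm', e'⟩ := (hline_iff hk hC hp' hq' hj hb').1 h2
        obtain ⟨e1, e2⟩ := hline_unique hk hC hq hi hb hq' hj hb' hm hm' hm0 e'
        rw [e1, e2]
      · right
        unfold sl at h2 ⊢
        rw [if_neg hb'] at h2 ⊢
        exact ⟨j, mem_range.2 hj, (thr_eq h2).symm⟩
    · rintro (rfl | ⟨j, hj, rfl⟩)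
      · refine ⟨mem_lns.2 ⟨q, i, hq, hi, ?_⟩, hinc⟩
        unfold sl
        rw [if_pos hb]
      · rw [mem_range] at hj
        refine ⟨mem_lns.2 ⟨p, j, hp', hj, ?_⟩, qinc_self _ _⟩
        unfold sl
        rw [if_neg (hnb j hj)]
  rw [e, card_insert_of_notMem, card_image_of_injective, card_range]
  · omega
  · intro a b hab
    exact slV_inj (congrArg Prod.fst hab)
  · intro hmem
    obtain ⟨j, -, hj⟩ := mem_image.1 hmem
    exact slV_ne_slH hk hC q hi (congrArg Prod.fst hj)

open Classical in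
theorem card_not_hit {p : ℤ × ℤ} (hp' : p ∈ pts k C) (h : ¬ Hit k C p) :
    ((lns k C).filter (QInc p)).card = k - 1 := by
  have e : (lns k C).filter (QInc p) = (range (k - 1)).image (fun j => thr (sl k C p j) p) := by
    ext l
    rw [mem_filter, mem_image]
    constructor
    · rintro ⟨h1, h2⟩
      obtain ⟨q', j, hq', hj, rfl⟩ := mem_lns.1 h1
      refine ⟨j, mem_range.2 hj, ?_⟩
      by_cases hb' : Broken k C q' j
      · have h3 := h2
        unfold sl at h3
        rw [if_pos hb'] at h3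
        obtain ⟨m', hm', e'⟩ := (hline_iff hk hC hp' hq' hj hb').1 h3
        have hm0 : m' = 0 := by
          by_contra hm0
          exact h ⟨q', j, m', hq', hj, hb', hm', hm0, e'⟩
        have e1 : p = q' := by
          rw [e', hm0]
          unfold hp
          simp
        rw [e1]
      · have h3 := h2
        unfold sl at h3
        rw [if_neg hb'] at h3
        have h4 := not_broken_of_vline hk hp' hq' hb' h3
        unfold sl
        rw [if_neg hb', if_neg h4]
        exact (thr_eq h3).symm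
    · rintro ⟨j, hj, rfl⟩
      exact ⟨mem_lns.2 ⟨p, j, hp', mem_range.1 hj, rfl⟩, qinc_self _ _⟩
  rw [e, card_image_of_injOn, card_range]
  intro a ha b hb hab
  have ha' : a < k - 1 := by simpa using ha
  have hb' : b < k - 1 := by simpa using hb
  exact sl_inj hk hC p ha' hb' (congrArg Prod.fst hab)

open Classical in
theorem card_degrees : ∀ p ∈ pts k C, ((lns k C).filter (QInc p)).card = k - 1 ∨
    ((lns k C).filter (QInc p)).card = k := by
  intro p hp'
  by_cases h : Hit k C p
  · exact Or.inr (card_hit hk hC hp' h)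
  · exact Or.inl (card_not_hit hk hC hp' h)

omit hk hC in
theorem card_pts : (pts k C).card = 2 * k ^ 2 * C := by
  unfold pts
  rw [card_product, Int.card_Ico, Int.card_Ico]
  have h1 : ((k : ℤ) * C - 0).toNat = k * C := by
    rw [sub_zero]
    exact_mod_cast Int.toNat_natCast (k * C)
  have h2 : (2 * (k : ℤ) - 0).toNat = 2 * k := by
    rw [sub_zero]
    exact_mod_cast Int.toNat_natCast (2 * k)
  rw [h1, h2]
  ring

omit hC in
open Classical in
/-- few points are hit -/
theorem card_hits : ((pts k C).filter (fun p => Hit k C p)).card ≤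
    4 * k * (k - 1) ^ 2 * ((k - 1) * (2 * k - 3)) := by
  set z : ℕ := (k - 1) * (2 * k - 3) with hz
  have hzz : (z : ℤ) = zz k := by
    rw [hz]
    unfold zz
    push_cast [Nat.cast_sub (by omega : 1 ≤ k), Nat.cast_sub (by omega : 3 ≤ 2 * k)]
    ring
  set Z : Finset (ℤ × ℤ) := (Ico 0 (z : ℤ) ∪ Ico ((k : ℤ) * C - z) (k * C)) ×ˢ Ico 0 (2 * (k : ℤ))
    with hZ
  have hZc : Z.card ≤ 2 * z * (2 * k) := by
    rw [hZ, card_product]
    apply Nat.mul_le_mul
    · refine (card_union_le _ _).trans ?_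
      rw [Int.card_Ico, Int.card_Ico]
      omega
    · rw [Int.card_Ico]
      omega
  have hsub : (pts k C).filter (fun p => Hit k C p) ⊆
      ((Z ×ˢ range (k - 1)) ×ˢ Ico 1 k).image (fun w => hp k C w.1.1 w.1.2 (w.2 : ℕ)) := by
    intro p hp'
    rw [mem_filter] at hp'
    obtain ⟨-, q, i, m, hq, hi, hb, hm, hm0, rfl⟩ := hp'
    rw [mem_image]
    refine ⟨((q, i), m), ?_, rfl⟩
    rw [mem_product, mem_product, mem_range, mem_Ico]
    refine ⟨⟨?_, hi⟩, by omega, hm⟩
    obtain ⟨⟨g1, g2⟩, g3, g4⟩ := mem_pts.1 hq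
    rw [hZ, mem_product, mem_union, mem_Ico, mem_Ico, mem_Ico]
    refine ⟨?_, g3, g4⟩
    rcases start_pos hk hq hi hb with ⟨-, s⟩ | ⟨-, s⟩
    · left
      rw [hzz]
      exact ⟨g1, s⟩
    · right
      rw [hzz]
      exact ⟨s, g2⟩
  calc ((pts k C).filter (fun p => Hit k C p)).card
      ≤ ((Z ×ˢ range (k - 1)) ×ˢ Ico 1 k).card :=
        (card_le_card hsub).trans card_image_le
    _ = Z.card * (k - 1) * (k - 1) := by
        rw [card_product, card_product, card_range, Nat.card_Ico]
    _ ≤ 2 * z * (2 * k) * (k - 1) * (k - 1) :=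
        Nat.mul_le_mul_right _ (Nat.mul_le_mul_right _ hZc)
    _ = 4 * k * (k - 1) ^ 2 * z := by ring

open Classical in
/-- many points have degree `k - 1` -/
theorem card_D : 2 * k ^ 2 * C ≤ ((pts k C).filter (fun p =>
    ((lns k C).filter (QInc p)).card = k - 1)).card + 4 * k * (k - 1) ^ 2 * ((k - 1) * (2 * k - 3)) := by
  have h1 := card_filter_add_card_filter_not (s := pts k C) (fun p => Hit k C p)
  have h2 := card_hits (C := C) hk
  have h3 : ((pts k C).filter (fun p => ¬ Hit k C p)).card ≤ ((pts k C).filter (fun p =>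
      ((lns k C).filter (QInc p)).card = k - 1)).card := by
    apply card_le_card
    intro p hp'
    rw [mem_filter] at hp' ⊢
    exact ⟨hp'.1, card_not_hit hk hC hp'.1 hp'.2⟩
  have h4 := card_pts (k := k) (C := C)
  omega

end

end H5NK.Grid
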