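import Pool.Agent.Lib.H5.NK.Basic

/-!
Lifting a nearly regular system of integer points and rational lines (every line has exactly `k`
points, every point has `k - 1` or `k` lines) to a configuration: take `k` translates in the
direction `(1, √2)` and join the translates of every point on `k - 1` lines.
-/

namespace H5NK

open Finset

open Classical in
theorem Cfg.of_degrees {n k : ℕ} (hk : 0 < k) {P L : Finset (ℝ × ℝ)} (hP : P.card = n)
    (h1 : ∀ p ∈ P, (L.filter (fun l => Inc p l)).card = k)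
    (h2 : ∀ l ∈ L, (P.filter (fun p => Inc p l)).card = k) : Cfg n k P L := by
  refine ⟨hP, ?_, h1, h2⟩
  have h := Finset.sum_card_bipartiteAbove_eq_sum_card_bipartiteBelow (s := P) (t := L)
    (fun p l => Inc p l)
  unfold bipartiteAbove bipartiteBelow at h
  rw [sum_congr rfl h1, sum_congr rfl h2, sum_const, sum_const, smul_eq_mul, smul_eq_mul, hP] at h
  exact (Nat.eq_of_mul_eq_mul_right hk h).symm

open Classical in
theorem Cfg.of_indexed_deg {α β : Type*} [Fintype α] [Fintype β] (f : α → ℝ × ℝ) (g : β → ℝ × ℝ)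
    (hf : Function.Injective f) (hg : Function.Injective g) {n k : ℕ} (hk : 0 < k)
    (hα : Fintype.card α = n)
    (h1 : ∀ a, ((univ : Finset β).filter (fun b => Inc (f a) (g b))).card = k)
    (h2 : ∀ b, ((univ : Finset α).filter (fun a => Inc (f a) (g b))).card = k) :
    Cfg n k ((univ : Finset α).image f) ((univ : Finset β).image g) := by
  apply Cfg.of_degrees hk
  · rw [card_image_of_injective _ hf, card_univ, hα]
  · intro p hp
    obtain ⟨a, -, rfl⟩ := mem_image.1 hp
    rw [filter_image, card_image_of_injective _ hg]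
    exact h1 a
  · intro l hl
    obtain ⟨b, -, rfl⟩ := mem_image.1 hl
    rw [filter_image, card_image_of_injective _ hf]
    exact h2 b

/-- incidence of an integer point with a rational line -/
def QInc (p : ℤ × ℤ) (l : ℚ × ℚ) : Prop := (p.2 : ℚ) + l.2 = l.1 * p.1

theorem irr_aux (s : ℚ) (a : ℚ) (m : ℤ) (h : (a : ℝ) = ((s : ℝ) - √2) * m) : m = 0 ∧ a = 0 := by
  by_cases hm : m = 0
  · subst hm
    refine ⟨rfl, ?_⟩
    have : (a : ℝ) = 0 := by rw [h]; simp
    exact_mod_cast this
  · exfalso
    have hm' : (m : ℝ) ≠ 0 := by exact_mod_cast hm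
    apply irrational_sqrt_two
    refine ⟨s - a / m, ?_⟩
    push_cast
    field_simp
    rw [h]
    ring

open Classical in
theorem exists_lift {k : ℕ} (hk : 2 ≤ k) (P : Finset (ℤ × ℤ)) (L : Finset (ℚ × ℚ))
    (h1 : ∀ p ∈ P, (L.filter (QInc p)).card = k - 1 ∨ (L.filter (QInc p)).card = k)
    (h2 : ∀ l ∈ L, (P.filter (fun p => QInc p l)).card = k) :
    ∃ P' L', Cfg (P.card * k) k P' L' ∧
      (P.filter (fun p => (L.filter (QInc p)).card = k - 1)).card ≤
        (L'.filter (fun l => l.1 = √2)).card := by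
  set D := P.filter (fun p => (L.filter (QInc p)).card = k - 1) with hD
  let f : P × Fin k → ℝ × ℝ := fun z => ((z.1.1.1 : ℝ) + (z.2 : ℕ), (z.1.1.2 : ℝ) + √2 * (z.2 : ℕ))
  let g : (L × Fin k) ⊕ D → ℝ × ℝ :=
    Sum.elim (fun z => ((z.1.1.1 : ℝ), (z.1.1.2 : ℝ) + ((z.1.1.1 : ℝ) - √2) * (z.2 : ℕ)))
      (fun p => (√2, √2 * p.1.1 - p.1.2))
  have hf : Function.Injective f := by
    rintro ⟨⟨⟨x, y⟩, hp⟩, i⟩ ⟨⟨⟨x', y'⟩, hq⟩, j⟩ he
    simp only [f, Prod.mk.injEq] at he
    obtain ⟨e1, e2⟩ := he
    have h3 := irr_aux 0 ((y : ℚ) - y') ((i : ℤ) - (j : ℤ)) (by push_cast; linarith)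
    have h4 : (i : ℕ) = j := by have := h3.1; omega
    have h5 : i = j := Fin.ext h4
    subst h5
    have h6 : (x : ℝ) = x' := by linarith
    have h7 : (y : ℝ) = y' := by linarith
    have h8 : x = x' := by exact_mod_cast h6
    have h9 : y = y' := by exact_mod_cast h7
    subst h8
    subst h9
    rfl
  have hs2 : ∀ s : ℚ, (s : ℝ) ≠ √2 := fun s h => irrational_sqrt_two ⟨s, h⟩
  have hsq : ∀ a b : ℤ, (a : ℝ) = √2 * b → b = 0 ∧ a = 0 := by
    intro a b h
    have h3 := irr_aux 0 (a : ℚ) (- b) (by push_cast; linarith)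
    exact ⟨by linarith [h3.1], by exact_mod_cast h3.2⟩
  have hg : Function.Injective g := by
    rintro (⟨⟨⟨s, e⟩, hl⟩, i⟩ | ⟨⟨x, y⟩, hp⟩) (⟨⟨⟨s', e'⟩, hl'⟩, j⟩ | ⟨⟨x', y'⟩, hq⟩) he
    · simp only [g, Sum.elim_inl, Prod.mk.injEq] at he
      obtain ⟨e1, e2⟩ := he
      have e3 : s = s' := by exact_mod_cast e1
      subst e3
      have h3 := irr_aux s ((e : ℚ) - e') ((j : ℤ) - (i : ℤ)) (by push_cast; linarith)
      have h4 : (i : ℕ) = j := by have := h3.1; omega
      have h5 : i = j := Fin.ext h4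
      subst h5
      have h6 : e = e' := by linarith [h3.2]
      subst h6
      rfl
    · simp only [g, Sum.elim_inl, Sum.elim_inr, Prod.mk.injEq] at he
      exact absurd he.1 (hs2 s)
    · simp only [g, Sum.elim_inl, Sum.elim_inr, Prod.mk.injEq] at he
      exact absurd he.1.symm (hs2 s')
    · simp only [g, Sum.elim_inr, Prod.mk.injEq, true_and] at he
      have h3 := hsq (y - y') (x - x') (by push_cast; linarith)
      have h4 : x = x' := by linarith [h3.1]
      have h5 : y = y' := by linarith [h3.2]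
      subst h4
      subst h5
      rfl
  have i1 : ∀ (p : P) (i : Fin k) (l : L) (j : Fin k),
      Inc (f (p, i)) (g (Sum.inl (l, j))) ↔ (i = j ∧ QInc p.1 l.1) := by
    rintro ⟨⟨x, y⟩, hp⟩ i ⟨⟨s, e⟩, hl⟩ j
    simp only [f, g, Sum.elim_inl, Inc, QInc]
    constructor
    · intro h
      have h3 := irr_aux s ((y : ℚ) + e - s * x) ((i : ℤ) - (j : ℤ)) (by push_cast; linarith)
      have h4 : (i : ℕ) = j := by have := h3.1; omega
      exact ⟨Fin.ext h4, by linarith [h3.2]⟩
    · rintro ⟨rfl, h⟩
      have h' : (y : ℝ) + e = s * x := by exact_mod_cast h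
      linear_combination h'
  have i2 : ∀ (p : P) (i : Fin k) (q : D), Inc (f (p, i)) (g (Sum.inr q)) ↔ p.1 = q.1 := by
    rintro ⟨⟨x, y⟩, hp⟩ i ⟨⟨x', y'⟩, hq⟩
    simp only [f, g, Sum.elim_inr, Inc, Prod.mk.injEq]
    constructor
    · intro h
      have h3 := hsq (y - y') (x - x') (by push_cast; linarith)
      exact ⟨by linarith [h3.1], by linarith [h3.2]⟩
    · rintro ⟨rfl, rfl⟩
      ring
  have hcfg : Cfg (P.card * k) k ((univ : Finset (P × Fin k)).image f)
      ((univ : Finset ((L × Fin k) ⊕ D)).image g) := by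
    apply Cfg.of_indexed_deg f g hf hg (by omega)
    · rw [Fintype.card_prod, Fintype.card_coe, Fintype.card_fin]
    · rintro ⟨p, i⟩
      rw [card_filter, Fintype.sum_sum_type, Fintype.sum_prod_type]
      simp only [i1, i2]
      have e1 : ∑ x : L, ∑ y : Fin k,
          (if (i = y ∧ QInc p.1 x.1) then 1 else 0) = (L.filter (fun l => QInc p.1 l)).card := by
        have e2 : ∀ x : L, ∑ y : Fin k,
            (if (i = y ∧ QInc p.1 x.1) then 1 else 0) = (if QInc p.1 x.1 then 1 else 0) := by
          intro x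
          by_cases hx : QInc p.1 x.1 <;> simp [hx]
        rw [sum_congr rfl (fun x _ => e2 x)]
        rw [sum_coe_sort L (fun x => if QInc p.1 x then 1 else 0), ← card_filter]
      have e3 : ∑ x : D, (if p.1 = x.1 then 1 else 0) = if p.1 ∈ D then 1 else 0 := by
        rw [sum_coe_sort D (fun x => if p.1 = x then 1 else 0), sum_ite_eq]
      rw [e1, e3]
      by_cases hpD : p.1 ∈ D
      · rw [if_pos hpD]
        have h3 := (mem_filter.1 hpD).2
        have h4 : (L.filter (fun l => QInc p.1 l)).card = k - 1 := h3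
        omega
      · rw [if_neg hpD]
        have h3 := h1 p.1 p.2
        rcases h3 with h3 | h3
        · exact absurd (mem_filter.2 ⟨p.2, h3⟩) hpD
        · exact h3
    · rintro (⟨l, j⟩ | q)
      · rw [card_filter, Fintype.sum_prod_type]
        simp only [i1]
        have e2 : ∀ x : P, ∑ y : Fin k,
            (if (y = j ∧ QInc x.1 l.1) then 1 else 0) = (if QInc x.1 l.1 then 1 else 0) := by
          intro x
          by_cases hx : QInc x.1 l.1 <;> simp [hx]
        rw [sum_congr rfl (fun x _ => e2 x)]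
        rw [sum_coe_sort P (fun x => if QInc x l.1 then 1 else 0), ← card_filter]
        exact h2 l.1 l.2
      · rw [card_filter, Fintype.sum_prod_type]
        simp only [i2]
        have hqP : q.1 ∈ P := (mem_filter.1 q.2).1
        simp only [sum_const, card_univ, Fintype.card_fin, smul_eq_mul]
        rw [← mul_sum, sum_coe_sort P (fun x => if x = q.1 then 1 else 0), sum_ite_eq',
          if_pos hqP, mul_one]
  refine ⟨_, _, hcfg, ?_⟩
  have h3 : (univ : Finset D).image (fun d => g (Sum.inr d)) ⊆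
      ((univ : Finset ((L × Fin k) ⊕ D)).image g).filter (fun l => l.1 = √2) := by
    intro l hl
    obtain ⟨d, -, rfl⟩ := mem_image.1 hl
    rw [mem_filter]
    refine ⟨mem_image_of_mem _ (mem_univ _), ?_⟩
    simp only [g, Sum.elim_inr]
  have h4 := card_le_card h3
  rw [card_image_of_injective _ (fun a b h => by simpa using hg h), card_univ, Fintype.card_coe]
    at h4
  exact h4

end H5NK
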