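import Pool.Agent.Lib.H5.NK.Basic

/-!
For `k ≤ 2 ^ m`, a generic Minkowski sum of `m` regular `2k`-gons, restricted by a parity pattern,
is the point set of a `(k ^ (m + 1))_k` configuration.
-/

namespace H5NK

open Finset Real

/-- angle of the vertex `2 e + b` of the regular `2k`-gon -/
noncomputable def ang (k : ℕ) (e : ZMod k) (b : Bool) : ℝ :=
  π * (2 * (e.val : ℝ) + (if b then 1 else 0)) / k

/-- direction angle of the class `t` -/
noncomputable def dir (k : ℕ) (t : Fin k) : ℝ := π * (2 * (t : ℕ) + 1) / (2 * k)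

/-- value of the functional of class `t` on the vertex `2 e + b` -/
noncomputable def cc (k : ℕ) (t : Fin k) (z : ZMod k × Bool) : ℝ :=
  cos (ang k z.1 z.2 - dir k t)

/-- being on a common chord of class `t` -/
def Rel (k : ℕ) (t : Fin k) (z w : ZMod k × Bool) : Prop :=
  (w.2 = z.2 ∧ w.1 = z.1) ∨ (w.2 ≠ z.2 ∧ w.1 = ((t : ℕ) : ZMod k) - z.1)

theorem cc_eq_iff {k : ℕ} [NeZero k] (t : Fin k) (z w : ZMod k × Bool) :
    cc k t z = cc k t w ↔ Rel k t z w := by
  obtain ⟨e, b⟩ := z
  obtain ⟨e', b'⟩ := w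
  have hk : (0 : ℝ) < k := by exact_mod_cast Nat.pos_of_ne_zero (NeZero.ne k)
  have hk' : (k : ℝ) ≠ 0 := hk.ne'
  have hπ : (π : ℝ) ≠ 0 := pi_ne_zero
  simp only [cc, Rel, cos_eq_cos_iff]
  -- integer versions
  set x : ℤ := if b then 1 else 0 with hx
  set x' : ℤ := if b' then 1 else 0 with hx'
  have hA : ang k e b - dir k t = π * (4 * (e.val : ℝ) + 2 * (x : ℝ) - 2 * (t : ℕ) - 1) / (2 * k) := by
    unfold ang dir
    rw [hx]
    push_cast
    by_cases hb : b <;> simp [hb] <;> field_simp <;> ring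
  have hB : ang k e' b' - dir k t =
      π * (4 * (e'.val : ℝ) + 2 * (x' : ℝ) - 2 * (t : ℕ) - 1) / (2 * k) := by
    unfold ang dir
    rw [hx']
    push_cast
    by_cases hb : b' <;> simp [hb] <;> field_simp <;> ring
  have h1 : ∀ n : ℤ, (ang k e' b' - dir k t = 2 * n * π + (ang k e b - dir k t)) ↔
      ((2 * (e'.val : ℤ) + x') - (2 * (e.val : ℤ) + x) = 2 * k * n) := by
    intro n
    rw [hA, hB]
    constructor
    · intro h
      have h2 : ((2 * (e'.val : ℝ) + x') - (2 * (e.val : ℝ) + x)) = 2 * k * n := by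
        field_simp at h
        linarith
      exact_mod_cast h2
    · intro h
      have h2 : ((2 * (e'.val : ℝ) + x') - (2 * (e.val : ℝ) + x)) = 2 * k * n := by
        exact_mod_cast h
      field_simp
      linear_combination 2 * h2
  have h2 : ∀ n : ℤ, (ang k e' b' - dir k t = 2 * n * π - (ang k e b - dir k t)) ↔
      ((2 * (e'.val : ℤ) + x') + (2 * (e.val : ℤ) + x) - 2 * (t : ℕ) - 1 = 2 * k * n) := by
    intro n
    rw [hA, hB]
    constructor
    · intro h
      have h2 : ((2 * (e'.val : ℝ) + x') + (2 * (e.val : ℝ) + x) - 2 * (t : ℕ) - 1) = 2 * k * n := by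
        field_simp at h
        linarith
      exact_mod_cast h2
    · intro h
      have h2 : ((2 * (e'.val : ℝ) + x') + (2 * (e.val : ℝ) + x) - 2 * (t : ℕ) - 1) = 2 * k * n := by
        exact_mod_cast h
      field_simp
      linear_combination 2 * h2
  simp only [h1, h2]
  have cast0 : ∀ q : ℤ, (∃ n : ℤ, q = k * n) ↔ ((q : ℤ) : ZMod k) = 0 := by
    intro q
    rw [ZMod.intCast_zmod_eq_zero_iff_dvd]
    rfl
  constructor
  · rintro ⟨n, h | h⟩
    · left
      have hbb : b' = b := by
        rw [mul_assoc] at h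
        generalize (k : ℤ) * n = N at h
        cases b <;> cases b' <;> simp only [hx, hx'] at h ⊢ <;> simp at h <;> omega
      refine ⟨hbb, ?_⟩
      have hxx : x' = x := by rw [hx, hx', hbb]
      have h3 : ((e'.val : ℤ) - e.val) = k * n := by
        rw [hxx] at h
        linarith
      have h4 := (cast0 _).1 ⟨n, h3⟩
      push_cast at h4
      rw [ZMod.natCast_zmod_val, ZMod.natCast_zmod_val] at h4
      exact sub_eq_zero.1 h4
    · right
      have hbb : b' ≠ b := by
        rw [mul_assoc] at h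
        generalize (k : ℤ) * n = N at h
        cases b <;> cases b' <;> simp only [hx, hx'] at h ⊢ <;> simp at h ⊢ <;> omega
      refine ⟨hbb, ?_⟩
      have hxx : x' + x = 1 := by
        by_cases hb : b <;> by_cases hb' : b' <;> simp [hb, hb', hx, hx'] at hbb ⊢
      have h3 : ((e'.val : ℤ) + e.val - (t : ℕ)) = k * n := by
        have : (2 * (e'.val : ℤ) + x') + (2 * e.val + x) = 2 * (e'.val : ℤ) + 2 * e.val + 1 := by
          rw [← hxx]; ring
        linarith
      have h4 := (cast0 _).1 ⟨n, h3⟩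
      push_cast at h4
      rw [ZMod.natCast_zmod_val, ZMod.natCast_zmod_val] at h4
      linear_combination h4
  · rintro (⟨hbb, he⟩ | ⟨hbb, he⟩)
    · refine ⟨0, Or.inl ?_⟩
      rw [hx, hx', hbb, he]
      ring
    · have hxx : x' + x = 1 := by
        by_cases hb : b <;> by_cases hb' : b' <;> simp [hb, hb', hx, hx'] at hbb ⊢
      have h4 : (((e'.val : ℤ) + e.val - (t : ℕ) : ℤ) : ZMod k) = 0 := by
        push_cast
        rw [ZMod.natCast_zmod_val, ZMod.natCast_zmod_val, he]
        ring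
      obtain ⟨n, hn⟩ := (cast0 _).2 h4
      refine ⟨n, Or.inr ?_⟩
      have : (2 * (e'.val : ℤ) + x') + (2 * e.val + x) = 2 * (e'.val : ℤ) + 2 * e.val + 1 := by
        rw [← hxx]; ring
      linarith

/-- a generic scaling factor -/
theorem exists_generic (k m : ℕ) [NeZero k] : ∃ s : ℝ, ∀ (t : Fin k)
    (z w : Fin m → ZMod k × Bool),
    (∑ j : Fin m, s ^ (j : ℕ) * cc k t (z j)) = (∑ j : Fin m, s ^ (j : ℕ) * cc k t (w j)) →
    ∀ j, cc k t (z j) = cc k t (w j) := by
  classical
  let pol : (Fin k × (Fin m → ZMod k × Bool) × (Fin m → ZMod k × Bool)) → Polynomial ℝ :=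
    fun u => ∑ j : Fin m, Polynomial.monomial (j : ℕ) (cc k u.1 (u.2.1 j) - cc k u.1 (u.2.2 j))
  have hfin : (⋃ u, ((pol u).roots.toFinset : Set ℝ)).Finite :=
    Set.finite_iUnion (fun u => Finset.finite_toSet _)
  obtain ⟨s, hs⟩ := exists_avoid hfin
  refine ⟨s, ?_⟩
  intro t z w h j
  have h1 : (pol (t, z, w)).eval s = 0 := by
    simp only [pol, Polynomial.eval_finsetSum, Polynomial.eval_monomial]
    rw [← sub_eq_zero, ← Finset.sum_sub_distrib] at h
    rw [← h]
    refine Finset.sum_congr rfl (fun j _ => ?_)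
    ring
  have h2 : pol (t, z, w) = 0 := by
    by_contra hne
    apply hs
    refine Set.mem_iUnion.2 ⟨(t, z, w), ?_⟩
    rw [Finset.mem_coe, Multiset.mem_toFinset, Polynomial.mem_roots hne]
    exact h1
  have h3 : (pol (t, z, w)).coeff (j : ℕ) = 0 := by rw [h2]; simp
  simp only [pol, Polynomial.finsetSum_coeff, Polynomial.coeff_monomial] at h3
  rw [Finset.sum_eq_single j] at h3
  · simp only [if_true] at h3
    exact sub_eq_zero.1 h3
  · intro i _ hij
    rw [if_neg]
    intro he
    exact hij (Fin.ext he)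
  · simp

theorem sin_dir_pos {k : ℕ} (t : Fin k) : 0 < sin (dir k t) := by
  have hk : (0 : ℝ) < k := by exact_mod_cast (Nat.pos_of_ne_zero (by rintro rfl; exact t.elim0))
  apply sin_pos_of_pos_of_lt_pi
  · unfold dir; positivity
  · unfold dir
    rw [div_lt_iff₀ (by positivity)]
    have h1 : ((t : ℕ) : ℝ) + 1 ≤ k := by exact_mod_cast t.2
    nlinarith [pi_pos]

theorem dir_slope_inj {k : ℕ} {t u : Fin k}
    (h : cos (dir k t) / sin (dir k t) = cos (dir k u) / sin (dir k u)) : t = u := by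
  have hk : (0 : ℝ) < k := by exact_mod_cast (Nat.pos_of_ne_zero (by rintro rfl; exact t.elim0))
  have h1 := (sin_dir_pos t).ne'
  have h2 := (sin_dir_pos u).ne'
  rw [div_eq_div_iff h1 h2] at h
  have h3 : sin (dir k u - dir k t) = 0 := by rw [sin_sub]; linarith
  have hlt : ∀ t u : Fin k, (dir k u - dir k t) < π := by
    intro t u
    unfold dir
    rw [← sub_div, div_lt_iff₀ (by positivity)]
    have h1 : ((u : ℕ) : ℝ) + 1 ≤ k := by exact_mod_cast u.2
    have h2 : (0 : ℝ) ≤ ((t : ℕ) : ℝ) := by positivity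
    nlinarith [pi_pos]
  have h4 : dir k u - dir k t = 0 :=
    (sin_eq_zero_iff_of_lt_of_lt (by linarith [hlt u t]) (hlt t u)).1 h3
  unfold dir at h4
  have h5 : ((u : ℕ) : ℝ) = t := by
    field_simp at h4
    rw [mul_zero] at h4
    have h6 := (mul_eq_zero.1 h4).resolve_left pi_ne_zero
    linarith
  exact (Fin.ext (by exact_mod_cast h5)).symm

/-- the point of the Minkowski sum -/
noncomputable def pt (k m : ℕ) (s : ℝ) (z : Fin m → ZMod k × Bool) : ℝ × ℝ :=
  (∑ j : Fin m, s ^ (j : ℕ) * cos (ang k (z j).1 (z j).2),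
    ∑ j : Fin m, s ^ (j : ℕ) * sin (ang k (z j).1 (z j).2))

/-- the functional of class `t` -/
noncomputable def fn (k : ℕ) (t : Fin k) (p : ℝ × ℝ) : ℝ :=
  p.1 * cos (dir k t) + p.2 * sin (dir k t)

/-- the line of class `t` and value `v` -/
noncomputable def ln (k : ℕ) (t : Fin k) (v : ℝ) : ℝ × ℝ :=
  (- (cos (dir k t) / sin (dir k t)), - (v / sin (dir k t)))

theorem inc_ln {k : ℕ} (t : Fin k) (v : ℝ) (p : ℝ × ℝ) : Inc p (ln k t v) ↔ fn k t p = v := by
  have h := (sin_dir_pos t).ne'
  unfold Inc ln fn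
  constructor
  · intro h1
    field_simp at h1
    linarith
  · intro h1
    field_simp
    linarith

theorem fn_pt {k m : ℕ} (s : ℝ) (t : Fin k) (z : Fin m → ZMod k × Bool) :
    fn k t (pt k m s z) = ∑ j : Fin m, s ^ (j : ℕ) * cc k t (z j) := by
  unfold fn pt cc
  simp only [sum_mul]
  rw [← sum_add_distrib]
  refine sum_congr rfl (fun j _ => ?_)
  rw [cos_sub]
  ring

open Classical in
theorem cfg_card_eq {k : ℕ} (hk : 0 < k) {P L : Finset (ℝ × ℝ)}
    (h1 : ∀ p ∈ P, (L.filter (fun l => Inc p l)).card = k)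
    (h2 : ∀ l ∈ L, (P.filter (fun p => Inc p l)).card = k) :
    L.card = P.card := by
  have h := sum_card_bipartiteAbove_eq_sum_card_bipartiteBelow (s := P) (t := L)
    (r := fun p l => Inc p l)
  have e1 : ∑ a ∈ P, #(bipartiteAbove (fun p l => Inc p l) L a) = P.card * k := by
    rw [sum_const_nat]
    intro p hp
    exact h1 p hp
  have e2 : ∑ b ∈ L, #(bipartiteBelow (fun p l => Inc p l) P b) = L.card * k := by
    rw [sum_const_nat]
    intro p hp
    exact h2 p hp
  rw [e1, e2] at h
  exact (Nat.eq_of_mul_eq_mul_right hk h).symm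

open Classical in
/-- main construction -/
theorem exists_cfg_polygon (k m : ℕ) (hk : 2 ≤ k) (hm : k ≤ 2 ^ m) :
    ∃ P L, Cfg (k ^ (m + 1)) k P L ∧ ∃ a₀ : ℝ, (L.filter (fun l => l.1 = a₀)).card = k ^ m := by
  have : NeZero k := ⟨by omega⟩
  have : Fact (1 < k) := ⟨by omega⟩
  obtain ⟨s, hs⟩ := exists_generic k m
  -- the set of parity patterns
  obtain ⟨S, hS⟩ : ∃ S : Finset (Fin m → Bool), S.card = k := by
    have : k ≤ (univ : Finset (Fin m → Bool)).card := by
      rw [card_univ]; simpa using hm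
    obtain ⟨S, -, hS⟩ := exists_subset_card_eq this
    exact ⟨S, hS⟩
  -- index type
  let mk : ((Fin m → ZMod k) × S) → (Fin m → ZMod k × Bool) := fun a j => (a.1 j, a.2.1 j)
  let f : ((Fin m → ZMod k) × S) → ℝ × ℝ := fun a => pt k m s (mk a)
  have hrel : ∀ (t : Fin k) (a a' : (Fin m → ZMod k) × S),
      fn k t (f a) = fn k t (f a') ↔ ∀ j, Rel k t (mk a j) (mk a' j) := by
    intro t a a'
    simp only [f, fn_pt]
    constructor
    · intro h j
      exact (cc_eq_iff t _ _).1 (hs t _ _ h j)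
    · intro h
      refine sum_congr rfl (fun j _ => ?_)
      rw [(cc_eq_iff t _ _).2 (h j)]
  have hf : Function.Injective f := by
    intro a a' h
    have h0 := (hrel ⟨0, by omega⟩ a a').1 (by rw [h])
    have h1 := (hrel ⟨1, by omega⟩ a a').1 (by rw [h])
    have key : ∀ j, a'.2.1 j = a.2.1 j ∧ a'.1 j = a.1 j := by
      intro j
      rcases h0 j with h2 | ⟨h2, h3⟩
      · exact h2
      · rcases h1 j with h4 | ⟨h4, h5⟩
        · exact h4
        · exfalso
          rw [h3] at h5
          simp only [Nat.cast_zero, Nat.cast_one, zero_sub] at h5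
          have h6 : (0 : ZMod k) = 1 := by linear_combination h5
          exact zero_ne_one h6
    have h2 : a.1 = a'.1 := funext (fun j => (key j).2.symm)
    have h3 : a.2 = a'.2 := Subtype.ext (funext (fun j => (key j).1.symm))
    exact Prod.ext h2 h3
  let P : Finset (ℝ × ℝ) := univ.image f
  let L : Finset (ℝ × ℝ) := univ.image (fun u : Fin k × ((Fin m → ZMod k) × S) =>
    ln k u.1 (fn k u.1 (f u.2)))
  have hslope : ∀ t u : Fin k, ∀ v w : ℝ, ln k t v = ln k u w → t = u := by
    intro t u v w h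
    simp only [ln, Prod.mk.injEq, neg_inj] at h
    exact dir_slope_inj h.1
  have hPk : ∀ p ∈ P, (L.filter (fun l => Inc p l)).card = k := by
    intro p hp
    obtain ⟨a, -, rfl⟩ := mem_image.1 hp
    have h1 : L.filter (fun l => Inc (f a) l) = univ.image (fun t : Fin k => ln k t (fn k t (f a))) := by
      ext l
      simp only [mem_filter, mem_image, mem_univ, true_and, L]
      constructor
      · rintro ⟨⟨⟨t, a'⟩, rfl⟩, h⟩
        refine ⟨t, ?_⟩
        rw [(inc_ln t _ _).1 h]
      · rintro ⟨t, rfl⟩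
        exact ⟨⟨⟨t, a⟩, rfl⟩, (inc_ln t _ _).2 rfl⟩
    rw [h1, card_image_of_injective]
    · simp
    · intro t u h
      exact hslope _ _ _ _ h
  have hLk : ∀ l ∈ L, (P.filter (fun p => Inc p l)).card = k := by
    intro l hl
    obtain ⟨⟨t, a⟩, -, rfl⟩ := mem_image.1 hl
    let fl : S → (Fin m → ZMod k) × S := fun b =>
      (fun j => if b.1 j = a.2.1 j then a.1 j else ((t : ℕ) : ZMod k) - a.1 j, b)
    have h1 : P.filter (fun p => Inc p (ln k t (fn k t (f a)))) = univ.image (fun b : S => f (fl b)) := by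
      ext p
      simp only [mem_filter, mem_image, mem_univ, true_and, P, inc_ln]
      constructor
      · rintro ⟨⟨a', rfl⟩, h⟩
        refine ⟨a'.2, ?_⟩
        have h2 := (hrel t a a').1 h.symm
        have h3 : fl a'.2 = a' := by
          refine Prod.ext (funext (fun j => ?_)) rfl
          rcases h2 j with ⟨h4, h5⟩ | ⟨h4, h5⟩
          · simp only [fl, mk] at h4 h5 ⊢
            rw [if_pos h4, h5]
          · simp only [fl, mk] at h4 h5 ⊢
            rw [if_neg h4, h5]
        rw [h3]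
      · rintro ⟨b, rfl⟩
        refine ⟨⟨fl b, rfl⟩, ?_⟩
        symm
        rw [hrel]
        intro j
        by_cases hb : b.1 j = a.2.1 j
        · left
          simp only [mk, fl]
          exact ⟨hb, by rw [if_pos hb]⟩
        · right
          simp only [mk, fl]
          exact ⟨hb, by rw [if_neg hb]⟩
    rw [h1, card_image_of_injective]
    · simp [hS]
    · intro b b' h
      have h2 := hf h
      exact congrArg Prod.snd h2
  have hPc : P.card = k ^ (m + 1) := by
    simp only [P]
    rw [card_image_of_injective _ hf, card_univ, Fintype.card_prod, Fintype.card_pi]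
    simp [hS, ZMod.card, pow_succ]
  refine ⟨P, L, ⟨hPc, by rw [cfg_card_eq (by omega) hPk hLk, hPc], hPk, hLk⟩, ?_⟩
  -- the class of the direction `0`
  let t0 : Fin k := ⟨0, by omega⟩
  let a₀ : ℝ := - (cos (dir k t0) / sin (dir k t0))
  refine ⟨a₀, ?_⟩
  have h := sum_card_bipartiteAbove_eq_sum_card_bipartiteBelow (s := P)
    (t := L.filter (fun l => l.1 = a₀)) (r := fun p l => Inc p l)
  have e1 : ∑ a ∈ P, #(bipartiteAbove (fun p l => Inc p l) (L.filter (fun l => l.1 = a₀)) a)
      = P.card * 1 := by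
    rw [sum_const_nat]
    intro p hp
    obtain ⟨a, -, rfl⟩ := mem_image.1 hp
    have h1 : bipartiteAbove (fun p l => Inc p l) (L.filter (fun l => l.1 = a₀)) (f a)
        = {ln k t0 (fn k t0 (f a))} := by
      ext l
      rw [mem_bipartiteAbove, mem_filter, mem_singleton]
      constructor
      · rintro ⟨⟨hl, hl0⟩, hi⟩
        obtain ⟨⟨t, a'⟩, -, rfl⟩ := mem_image.1 hl
        have ht : t = t0 := by
          apply dir_slope_inj
          simp only [ln, a₀, neg_inj] at hl0
          exact hl0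
        subst ht
        rw [(inc_ln _ _ _).1 hi]
      · rintro rfl
        exact ⟨⟨mem_image.2 ⟨(t0, a), mem_univ _, rfl⟩, rfl⟩, (inc_ln _ _ _).2 rfl⟩
    rw [h1, card_singleton]
  have e2 : ∑ b ∈ L.filter (fun l => l.1 = a₀), #(bipartiteBelow (fun p l => Inc p l) P b)
      = (L.filter (fun l => l.1 = a₀)).card * k := by
    rw [sum_const_nat]
    intro l hl
    exact hLk l (mem_filter.1 hl).1
  rw [e1, e2, hPc, mul_one, pow_succ] at h
  exact (Nat.eq_of_mul_eq_mul_right (by omega) h).symm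

theorem hasCfg_polygon (k m : ℕ) (hk : 2 ≤ k) (hm : k ≤ 2 ^ m) : HasCfg (k ^ (m + 1)) k := by
  obtain ⟨P, L, h, -⟩ := exists_cfg_polygon k m hk hm
  exact ⟨P, L, h⟩

end H5NK
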