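import Pool.Agent.Lib.H5.NK.Basic

namespace H5NK

open Finset

/-- a configuration can be moved to general position -/
theorem exists_normal {m K : ℕ} {P L : Finset (ℝ × ℝ)} (H : Cfg m K P L) :
    ∃ P' L', Cfg m K P' L' ∧ (∀ p ∈ P', p.1 ≠ 0) ∧ (∀ l ∈ L', l.1 ≠ 0) ∧
      (∀ p ∈ P', ∀ q ∈ P', p.2 = q.2 → p = q) ∧ (∀ p ∈ L', ∀ q ∈ L', p.2 = q.2 → p = q) ∧
      (∀ p ∈ P', ∀ l ∈ L', p.2 + l.2 ≠ 0) := by
  classical
  let F : Finset ℝ := L.image (fun l => - l.1) ∪
    (P ×ˢ P).image (fun z => - (z.1.2 - z.2.2) / (z.1.1 - z.2.1))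
  obtain ⟨c, hc⟩ := exists_avoid (F.finite_toSet)
  have hc' : c ∉ F := by simpa using hc
  simp only [F, mem_union, not_or, mem_image, mem_product, not_exists, not_and, and_imp,
    Prod.forall] at hc'
  obtain ⟨hc1, hc2⟩ := hc'
  let G : Finset ℝ := P.image (fun p => - p.1) ∪
    (L ×ˢ L).image (fun z => - (z.1.2 - z.2.2) / (z.1.1 - z.2.1)) ∪
    (P ×ˢ L).image (fun z => - (z.1.2 + z.2.2 + c * z.1.1) / (c + z.2.1))
  obtain ⟨t, ht⟩ := exists_avoid (G.finite_toSet)
  have ht' : t ∉ G := by simpa using ht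
  simp only [G, mem_union, not_or, mem_image, mem_product, not_exists, not_and, and_imp,
    Prod.forall] at ht'
  obtain ⟨⟨ht1, ht2⟩, ht3⟩ := ht'
  let τ : ℝ × ℝ → ℝ × ℝ := fun p => (p.1 + t, p.2 + c * (p.1 + t))
  let σ : ℝ × ℝ → ℝ × ℝ := fun l => (l.1 + c, l.2 + l.1 * t)
  have hτ : Function.Injective τ := by
    rintro ⟨a, b⟩ ⟨a', b'⟩ h
    simp only [τ, Prod.mk.injEq] at h
    have h1 : a = a' := by linarith [h.1]
    subst h1
    ext
    · rfl
    · simpa using h.2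
  have hσ : Function.Injective σ := by
    rintro ⟨a, b⟩ ⟨a', b'⟩ h
    simp only [σ, Prod.mk.injEq] at h
    have h1 : a = a' := by linarith [h.1]
    subst h1
    ext
    · rfl
    · simpa using h.2
  have hτσ : ∀ p l, Inc (τ p) (σ l) ↔ Inc p l := by
    intro p l
    simp only [Inc, τ, σ]
    constructor <;> intro h <;> linarith
  refine ⟨P.image τ, L.image σ, ⟨?_, ?_, ?_, ?_⟩, ?_, ?_, ?_, ?_, ?_⟩
  · rw [card_image_of_injective _ hτ, H.hP]
  · rw [card_image_of_injective _ hσ, H.hL]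
  · intro p hp
    obtain ⟨p, hp', rfl⟩ := mem_image.1 hp
    rw [filter_image, card_image_of_injective _ hσ]
    simp only [hτσ]
    exact H.hPk _ hp'
  · intro p hp
    obtain ⟨p, hp', rfl⟩ := mem_image.1 hp
    rw [filter_image, card_image_of_injective _ hτ]
    simp only [hτσ]
    exact H.hLk _ hp'
  · intro p hp
    obtain ⟨⟨x, y⟩, hp', rfl⟩ := mem_image.1 hp
    simp only [τ]
    intro h
    exact ht1 x y hp' (by linarith)
  · intro p hp
    obtain ⟨⟨x, y⟩, hp', rfl⟩ := mem_image.1 hp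
    simp only [σ]
    intro h
    exact hc1 x y hp' (by linarith)
  · intro p hp q hq h
    obtain ⟨⟨x, y⟩, hp', rfl⟩ := mem_image.1 hp
    obtain ⟨⟨x', y'⟩, hq', rfl⟩ := mem_image.1 hq
    simp only [τ] at h
    by_cases hx : x = x'
    · subst hx
      have : y = y' := by linarith
      rw [this]
    · exfalso
      have hx' : x - x' ≠ 0 := sub_ne_zero.2 hx
      apply hc2 x y x' y' hp' hq'
      rw [div_eq_iff hx']
      linarith
  · intro p hp q hq h
    obtain ⟨⟨x, y⟩, hp', rfl⟩ := mem_image.1 hp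
    obtain ⟨⟨x', y'⟩, hq', rfl⟩ := mem_image.1 hq
    simp only [σ] at h
    by_cases hx : x = x'
    · subst hx
      have : y = y' := by linarith
      rw [this]
    · exfalso
      have hx' : x - x' ≠ 0 := sub_ne_zero.2 hx
      apply ht2 x y x' y' hp' hq'
      rw [div_eq_iff hx']
      linarith
  · intro p hp q hq h
    obtain ⟨⟨x, y⟩, hp', rfl⟩ := mem_image.1 hp
    obtain ⟨⟨a, b⟩, hq', rfl⟩ := mem_image.1 hq
    simp only [σ, τ] at h
    have hca : c + a ≠ 0 := by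
      intro h0
      exact hc1 a b hq' (by linarith)
    apply ht3 x y a b hp' hq'
    rw [div_eq_iff hca]
    linarith

theorem exists_scale (P L : Finset (ℝ × ℝ)) : ∃ τ : ℝ, 1 < τ ∧
    ∀ p ∈ P, ∀ l ∈ L, |(p.2 + l.2) / (l.1 * p.1)| < τ ∧ |(l.1 * p.1) / (p.2 + l.2)| < τ := by
  classical
  let M : ℝ := ∑ z ∈ P ×ˢ L, (|(z.1.2 + z.2.2) / (z.2.1 * z.1.1)| +
    |(z.2.1 * z.1.1) / (z.1.2 + z.2.2)|)
  have hM : 0 ≤ M := sum_nonneg (fun z _ => by positivity)
  refine ⟨M + 2, by linarith, ?_⟩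
  intro p hp l hl
  have h1 : (|(p.2 + l.2) / (l.1 * p.1)| + |(l.1 * p.1) / (p.2 + l.2)|) ≤ M := by
    have := single_le_sum (s := P ×ˢ L) (f := fun z : (ℝ × ℝ) × (ℝ × ℝ) =>
      (|(z.1.2 + z.2.2) / (z.2.1 * z.1.1)| + |(z.2.1 * z.1.1) / (z.1.2 + z.2.2)|))
      (fun z _ => by positivity) (mem_product.2 ⟨hp, hl⟩ : (p, l) ∈ P ×ˢ L)
    exact this
  have h2 := abs_nonneg ((p.2 + l.2) / (l.1 * p.1))
  have h3 := abs_nonneg ((l.1 * p.1) / (p.2 + l.2))
  constructor <;> linarith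

theorem pow_sep {τ : ℝ} (hτ : 1 < τ) {u v : ℝ} (hu : u ≠ 0) (hv : v ≠ 0)
    (h1 : |v / u| < τ) (h2 : |u / v| < τ) {i j : ℕ} (h : v * τ ^ j = u * τ ^ i) : i = j := by
  have hτ0 : 0 < τ := by linarith
  rcases lt_trichotomy i j with hij | hij | hij
  · exfalso
    obtain ⟨d, rfl⟩ := Nat.exists_eq_add_of_lt hij
    have h3 : v * τ ^ (d + 1) = u := by
      have h4 : τ ^ i ≠ 0 := by positivity
      have h5 : τ ^ (i + d + 1) = τ ^ i * τ ^ (d + 1) := by ring
      rw [h5] at h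
      apply mul_left_cancel₀ h4
      linarith
    have h6 : |u / v| = τ ^ (d + 1) := by
      rw [← h3, mul_div_cancel_left₀ _ hv, abs_of_pos (by positivity)]
    rw [h6] at h2
    have h7 : τ ≤ τ ^ (d + 1) := le_self_pow₀ hτ.le (by omega)
    linarith
  · exact hij
  · exfalso
    obtain ⟨d, rfl⟩ := Nat.exists_eq_add_of_lt hij
    have h3 : u * τ ^ (d + 1) = v := by
      have h4 : τ ^ j ≠ 0 := by positivity
      have h5 : τ ^ (j + d + 1) = τ ^ j * τ ^ (d + 1) := by ring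
      rw [h5] at h
      apply mul_left_cancel₀ h4
      linarith
    have h6 : |v / u| = τ ^ (d + 1) := by
      rw [← h3, mul_div_cancel_left₀ _ hu, abs_of_pos (by positivity)]
    rw [h6] at h1
    have h7 : τ ≤ τ ^ (d + 1) := le_self_pow₀ hτ.le (by omega)
    linarith

/-- affine replication: an `(m_K)` configuration gives an `(((K+2) m)_{K+1})` configuration -/
theorem hasCfg_replicate {m K : ℕ} (h : HasCfg m K) : HasCfg ((K + 2) * m) (K + 1) := by
  classical
  obtain ⟨P₀, L₀, H₀⟩ := h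
  obtain ⟨P, L, H, hx, ha, hy, hb, hyb⟩ := exists_normal H₀
  obtain ⟨τ, hτ, hsep⟩ := exists_scale P L
  have hτ0 : (0 : ℝ) < τ := by linarith
  let f : (P × Fin (K + 1)) ⊕ L → ℝ × ℝ :=
    Sum.elim (fun z => (τ ^ (z.2 : ℕ) * z.1.1.1, z.1.1.2)) (fun l => (0, - l.1.2))
  let g : (L × Fin (K + 1)) ⊕ P → ℝ × ℝ :=
    Sum.elim (fun z => (z.1.1.1 / τ ^ (z.2 : ℕ), z.1.1.2)) (fun p => (0, - p.1.2))
  have hpow : ∀ i j : ℕ, ∀ x : ℝ, x ≠ 0 → τ ^ i * x = τ ^ j * x → i = j := by
    intro i j x hx0 he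
    have := mul_right_cancel₀ hx0 he
    exact pow_right_injective₀ hτ0 hτ.ne' this
  have hpow' : ∀ i j : ℕ, ∀ x : ℝ, x ≠ 0 → x / τ ^ i = x / τ ^ j → i = j := by
    intro i j x hx0 he
    rw [div_eq_div_iff (by positivity) (by positivity)] at he
    have := mul_left_cancel₀ hx0 he
    exact (pow_right_injective₀ hτ0 hτ.ne' this).symm
  have hf : Function.Injective f := by
    rintro (⟨⟨p, hp⟩, i⟩ | ⟨l, hl⟩) (⟨⟨q, hq⟩, j⟩ | ⟨l', hl'⟩) he
    · simp only [f, Sum.elim_inl, Prod.mk.injEq] at he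
      have hpq : p = q := hy p hp q hq he.2
      subst hpq
      have hij : (i : ℕ) = j := hpow _ _ _ (hx p hp) he.1
      have hij' : i = j := Fin.ext hij
      subst hij'
      rfl
    · simp only [f, Sum.elim_inl, Sum.elim_inr, Prod.mk.injEq] at he
      exfalso
      have h1 : τ ^ (i : ℕ) ≠ 0 := by positivity
      exact mul_ne_zero h1 (hx p hp) he.1
    · simp only [f, Sum.elim_inl, Sum.elim_inr, Prod.mk.injEq] at he
      exfalso
      have h1 : τ ^ (j : ℕ) ≠ 0 := by positivity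
      exact mul_ne_zero h1 (hx q hq) he.1.symm
    · simp only [f, Sum.elim_inr, Prod.mk.injEq] at he
      have hpq : l = l' := hb l hl l' hl' (by linarith [he.2])
      subst hpq
      rfl
  have hg : Function.Injective g := by
    rintro (⟨⟨p, hp⟩, i⟩ | ⟨l, hl⟩) (⟨⟨q, hq⟩, j⟩ | ⟨l', hl'⟩) he
    · simp only [g, Sum.elim_inl, Prod.mk.injEq] at he
      have hpq : p = q := hb p hp q hq he.2
      subst hpq
      have hij : (i : ℕ) = j := hpow' _ _ _ (ha p hp) he.1
      have hij' : i = j := Fin.ext hij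
      subst hij'
      rfl
    · simp only [g, Sum.elim_inl, Sum.elim_inr, Prod.mk.injEq] at he
      exfalso
      have h1 : τ ^ (i : ℕ) ≠ 0 := by positivity
      exact div_ne_zero (ha p hp) h1 he.1
    · simp only [g, Sum.elim_inl, Sum.elim_inr, Prod.mk.injEq] at he
      exfalso
      have h1 : τ ^ (j : ℕ) ≠ 0 := by positivity
      exact div_ne_zero (ha q hq) h1 he.1.symm
    · simp only [g, Sum.elim_inr, Prod.mk.injEq] at he
      have hpq : l = l' := hy l hl l' hl' (by linarith [he.2])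
      subst hpq
      rfl
  -- incidences
  have i1 : ∀ (p : P) (i : Fin (K + 1)) (l : L) (j : Fin (K + 1)),
      Inc (f (Sum.inl (p, i))) (g (Sum.inl (l, j))) ↔ (i = j ∧ Inc p.1 l.1) := by
    rintro ⟨p, hp⟩ i ⟨l, hl⟩ j
    simp only [f, g, Sum.elim_inl, Inc]
    have hj : (τ ^ (j : ℕ)) ≠ 0 := by positivity
    constructor
    · intro h
      have h1 : (p.2 + l.2) * τ ^ (j : ℕ) = (l.1 * p.1) * τ ^ (i : ℕ) := by
        rw [h]
        field_simp
      have h2 := hsep p hp l hl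
      have h3 : (i : ℕ) = j := pow_sep hτ (mul_ne_zero (ha l hl) (hx p hp)) (hyb p hp l hl)
        h2.1 h2.2 h1
      refine ⟨Fin.ext h3, ?_⟩
      rw [h3] at h1
      exact mul_right_cancel₀ hj h1
    · rintro ⟨rfl, h⟩
      rw [h]
      field_simp
  have i2 : ∀ (p : P) (i : Fin (K + 1)) (q : P),
      Inc (f (Sum.inl (p, i))) (g (Sum.inr q)) ↔ p = q := by
    rintro ⟨p, hp⟩ i ⟨q, hq⟩
    simp only [f, g, Sum.elim_inl, Sum.elim_inr, Inc, zero_mul, Subtype.mk.injEq]
    constructor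
    · intro h
      exact hy p hp q hq (by linarith)
    · rintro rfl
      ring
  have i3 : ∀ (l l' : L) (j : Fin (K + 1)),
      Inc (f (Sum.inr l)) (g (Sum.inl (l', j))) ↔ l = l' := by
    rintro ⟨p, hp⟩ ⟨q, hq⟩ i
    simp only [f, g, Sum.elim_inl, Sum.elim_inr, Inc, mul_zero, Subtype.mk.injEq]
    constructor
    · intro h
      exact hb p hp q hq (by linarith)
    · rintro rfl
      ring
  have i4 : ∀ (l : L) (p : P), ¬ Inc (f (Sum.inr l)) (g (Sum.inr p)) := by
    rintro ⟨l, hl⟩ ⟨p, hp⟩ h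
    simp only [f, g, Sum.elim_inr, Inc, mul_zero] at h
    exact hyb p hp l hl (by linarith)
  have cP : Fintype.card P = m := by rw [Fintype.card_coe, H.hP]
  have cL : Fintype.card L = m := by rw [Fintype.card_coe, H.hL]
  refine ⟨_, _, Cfg.of_indexed f g hf hg ?_ ?_ ?_ ?_⟩
  · rw [Fintype.card_sum, Fintype.card_prod, cP, cL, Fintype.card_fin]; ring
  · rw [Fintype.card_sum, Fintype.card_prod, cP, cL, Fintype.card_fin]; ring
  · rintro (⟨p, i⟩ | l)
    · rw [card_filter, Fintype.sum_sum_type, Fintype.sum_prod_type]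
      simp only [i1, i2]
      have e1 : ∑ x : L, ∑ y : Fin (K + 1), (if (i = y ∧ Inc p.1 x.1) then 1 else 0) = K := by
        have e2 : ∀ x : L, ∑ y : Fin (K + 1), (if (i = y ∧ Inc p.1 x.1) then 1 else 0)
            = (if Inc p.1 x.1 then 1 else 0) := by
          intro x
          by_cases hx : Inc p.1 x.1 <;> simp [hx]
        rw [sum_congr rfl (fun x _ => e2 x)]
        rw [sum_coe_sort L (fun x => if Inc p.1 x then 1 else 0), ← card_filter]
        exact H.hPk p.1 p.2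
      rw [e1]
      simp
    · rw [card_filter, Fintype.sum_sum_type, Fintype.sum_prod_type]
      simp only [i3, i4]
      simp
  · rintro (⟨l, i⟩ | p)
    · rw [card_filter, Fintype.sum_sum_type, Fintype.sum_prod_type]
      simp only [i1, i3]
      have e1 : ∑ x : P, ∑ y : Fin (K + 1), (if (y = i ∧ Inc x.1 l.1) then 1 else 0) = K := by
        have e2 : ∀ x : P, ∑ y : Fin (K + 1), (if (y = i ∧ Inc x.1 l.1) then 1 else 0)
            = (if Inc x.1 l.1 then 1 else 0) := by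
          intro x
          by_cases hx : Inc x.1 l.1 <;> simp [hx]
        rw [sum_congr rfl (fun x _ => e2 x)]
        rw [sum_coe_sort P (fun x => if Inc x l.1 then 1 else 0), ← card_filter]
        exact H.hLk l.1 l.2
      rw [e1]
      simp
    · rw [card_filter, Fintype.sum_sum_type, Fintype.sum_prod_type]
      simp only [i2, i4]
      simp

end H5NK
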