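import Pool.Agent.Lib.H5.NK.Basic

/-!
The affine switch: from an `(m_k)` configuration with at least `r` parallel lines one gets a
`(((k-1) m + r)_k)` configuration.
-/

namespace H5NK

open Finset Filter Polynomial

/-- make the lines of a given slope horizontal, and no point on the vertical axis -/
theorem exists_normal_switch {m k : ℕ} {P L : Finset (ℝ × ℝ)} (H : Cfg m k P L) (a₀ : ℝ) {r : ℕ}
    (hr : r ≤ (L.filter (fun l => l.1 = a₀)).card) :
    ∃ P' L', Cfg m k P' L' ∧ (∀ p ∈ P', p.1 ≠ 0) ∧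
      r ≤ (L'.filter (fun l => l.1 = 0)).card := by
  classical
  obtain ⟨t, ht⟩ := exists_avoid ((P.image (fun p => - p.1)).finite_toSet)
  have ht1 : ∀ p ∈ P, t ≠ - p.1 := by
    intro p hp h
    apply ht
    rw [mem_coe, mem_image]
    exact ⟨p, hp, h.symm⟩
  let c : ℝ := - a₀
  let τ : ℝ × ℝ → ℝ × ℝ := fun p => (p.1 + t, p.2 + c * (p.1 + t))
  let σ : ℝ × ℝ → ℝ × ℝ := fun l => (l.1 + c, l.2 + l.1 * t)
  have hτ : Function.Injective τ := by
    rintro ⟨a, b⟩ ⟨a', b'⟩ h
    simp only [τ, Prod.mk.injEq] at h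
    have h1 : a = a' := by linarith [h.1]
    subst h1
    ext
    · rfl
    · simpa using h.2
  have hσ : Function.Injective σ := by
    rintro ⟨a, b⟩ ⟨a', b'⟩ h
    simp only [σ, Prod.mk.injEq] at h
    have h1 : a = a' := by linarith [h.1]
    subst h1
    ext
    · rfl
    · simpa using h.2
  have hτσ : ∀ p l, Inc (τ p) (σ l) ↔ Inc p l := by
    intro p l
    simp only [Inc, τ, σ]
    constructor <;> intro h <;> linarith
  refine ⟨P.image τ, L.image σ, ⟨?_, ?_, ?_, ?_⟩, ?_, ?_⟩
  · rw [card_image_of_injective _ hτ, H.hP]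
  · rw [card_image_of_injective _ hσ, H.hL]
  · intro p hp
    obtain ⟨p, hp', rfl⟩ := mem_image.1 hp
    rw [filter_image, card_image_of_injective _ hσ]
    simp only [hτσ]
    exact H.hPk _ hp'
  · intro p hp
    obtain ⟨p, hp', rfl⟩ := mem_image.1 hp
    rw [filter_image, card_image_of_injective _ hτ]
    simp only [hτσ]
    exact H.hLk _ hp'
  · intro p hp
    obtain ⟨p, hp', rfl⟩ := mem_image.1 hp
    simp only [τ]
    intro h
    exact ht1 p hp' (by linarith)
  · rw [filter_image, card_image_of_injective _ hσ]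
    refine le_trans hr (card_le_card ?_)
    intro l hl
    rw [mem_filter] at hl ⊢
    refine ⟨hl.1, ?_⟩
    simp only [σ, c]
    rw [hl.2]
    ring

theorem ev_poly (q : ℝ[X]) (n : ℕ) (hq : q.coeff n ≠ 0) : ∀ᶠ s in atTop, q.eval s ≠ 0 := by
  have h : q ≠ 0 := by
    rintro rfl
    simp at hq
  filter_upwards [Polynomial.eventually_atTop_not_isRoot q h] with s hs
  exact hs

/-- generic scaling parameters -/
theorem exists_params (K : ℕ) (P L : Finset (ℝ × ℝ)) : ∃ β : Fin K → ℝ, (∀ j, 0 < β j) ∧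
    (∀ i j, i ≠ j → ∀ p ∈ P, ∀ l ∈ L, (p.2 + l.2 + β j - β i) * β i ≠ l.1 * p.1 * β j) ∧
    (∀ j, ∀ p ∈ P, ∀ q ∈ P, β j ≠ (p.2 - q.2) * q.1 / (p.1 - q.1)) ∧
    (∀ j, ∀ l ∈ L, ∀ h ∈ L, β j ≠ l.2 - h.2) ∧
    (∀ i j, i ≠ j → ∀ p ∈ P, ∀ q ∈ P, β j - β i ≠ q.2 - p.2) ∧
    (∀ i j, i ≠ j → ∀ p ∈ L, ∀ q ∈ L, β j - β i ≠ q.2 - p.2) ∧
    (∀ j, ∀ l ∈ L, ∀ p ∈ P, β j ≠ l.2 + p.2) := by
  have e1 : ∀ᶠ s : ℝ in atTop, ∀ i j : Fin K, i ≠ j → ∀ p ∈ P, ∀ l ∈ L,
      (p.2 + l.2 + s ^ ((j : ℕ) + 1) - s ^ ((i : ℕ) + 1)) * s ^ ((i : ℕ) + 1) ≠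
        l.1 * p.1 * s ^ ((j : ℕ) + 1) := by
    rw [eventually_all]; intro i
    rw [eventually_all]; intro j
    rw [eventually_imp_distrib_left]; intro hij
    rw [eventually_all_finset]; intro p hp
    rw [eventually_all_finset]; intro l hl
    have hij' : (i : ℕ) ≠ j := fun h => hij (Fin.ext h)
    filter_upwards [ev_poly (X ^ ((i : ℕ) + (j : ℕ) + 2) - X ^ ((i : ℕ) + (i : ℕ) + 2) +
      C (p.2 + l.2) * X ^ ((i : ℕ) + 1) - C (l.1 * p.1) * X ^ ((j : ℕ) + 1)) ((i : ℕ) + (j : ℕ) + 2)
      (by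
        simp only [coeff_sub, coeff_add, coeff_X_pow, coeff_C_mul_X_pow]
        rw [if_pos trivial, if_neg (by omega), if_neg (by omega), if_neg (by omega)]
        norm_num)] with s hs h
    apply hs
    simp only [eval_sub, eval_add, eval_pow, eval_X, eval_mul, eval_C]
    linear_combination h
  have e2 : ∀ᶠ s : ℝ in atTop, ∀ j : Fin K, ∀ p ∈ P, ∀ q ∈ P,
      s ^ ((j : ℕ) + 1) ≠ (p.2 - q.2) * q.1 / (p.1 - q.1) := by
    rw [eventually_all]; intro j
    rw [eventually_all_finset]; intro p hp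
    rw [eventually_all_finset]; intro q hq
    exact (tendsto_pow_atTop (by omega : (j : ℕ) + 1 ≠ 0)).eventually_ne_atTop _
  have e3 : ∀ᶠ s : ℝ in atTop, ∀ j : Fin K, ∀ p ∈ L, ∀ q ∈ L,
      s ^ ((j : ℕ) + 1) ≠ p.2 - q.2 := by
    rw [eventually_all]; intro j
    rw [eventually_all_finset]; intro p hp
    rw [eventually_all_finset]; intro q hq
    exact (tendsto_pow_atTop (by omega : (j : ℕ) + 1 ≠ 0)).eventually_ne_atTop _
  have e6 : ∀ᶠ s : ℝ in atTop, ∀ j : Fin K, ∀ p ∈ L, ∀ q ∈ P,
      s ^ ((j : ℕ) + 1) ≠ p.2 + q.2 := by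
    rw [eventually_all]; intro j
    rw [eventually_all_finset]; intro p hp
    rw [eventually_all_finset]; intro q hq
    exact (tendsto_pow_atTop (by omega : (j : ℕ) + 1 ≠ 0)).eventually_ne_atTop _
  have e4 : ∀ (F : Finset (ℝ × ℝ)), ∀ᶠ s : ℝ in atTop, ∀ i j : Fin K, i ≠ j → ∀ p ∈ F, ∀ q ∈ F,
      s ^ ((j : ℕ) + 1) - s ^ ((i : ℕ) + 1) ≠ q.2 - p.2 := by
    intro F
    rw [eventually_all]; intro i
    rw [eventually_all]; intro j
    rw [eventually_imp_distrib_left]; intro hij
    rw [eventually_all_finset]; intro p hp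
    rw [eventually_all_finset]; intro q hq
    have hij' : (i : ℕ) ≠ j := fun h => hij (Fin.ext h)
    filter_upwards [ev_poly (X ^ ((j : ℕ) + 1) - X ^ ((i : ℕ) + 1) - C (q.2 - p.2)) ((j : ℕ) + 1)
      (by
        simp only [coeff_sub, coeff_X_pow, coeff_C]
        rw [if_pos trivial, if_neg (by omega), if_neg (by omega)]
        norm_num)] with s hs h
    apply hs
    simp only [eval_sub, eval_pow, eval_X, eval_C]
    linear_combination h
  obtain ⟨s, hs0, h1, h2, h3, h4, h5, h6⟩ :=
    ((eventually_gt_atTop (0 : ℝ)).and (e1.and (e2.and (e3.and ((e4 P).and ((e4 L).and e6)))))).exists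
  exact ⟨fun j => s ^ ((j : ℕ) + 1), fun j => by positivity, h1, h2, h3, h4, h5, h6⟩

/-- the affine switch -/
theorem hasCfg_switch {m K : ℕ} {P₀ L₀ : Finset (ℝ × ℝ)} (H₀ : Cfg m (K + 1) P₀ L₀) (a₀ : ℝ)
    {r : ℕ} (hr₀ : r ≤ (L₀.filter (fun l => l.1 = a₀)).card) :
    HasCfg (K * m + r) (K + 1) := by
  classical
  obtain ⟨P, L, H, hx, hr⟩ := exists_normal_switch H₀ a₀ hr₀
  obtain ⟨R, hRL, hRr⟩ := exists_subset_card_eq hr
  have hR1 : ∀ h ∈ R, h ∈ L := fun h hh => (mem_filter.1 (hRL hh)).1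
  have hR0 : ∀ h ∈ R, h.1 = 0 := fun h hh => (mem_filter.1 (hRL hh)).2
  obtain ⟨β, hβ, c1, c2, c3, c4, c5, c6⟩ := exists_params K P L
  let Q : Finset (ℝ × ℝ) := R.biUnion (fun h => P.filter (fun p => Inc p h))
  have hQP : ∀ p ∈ Q, p ∈ P := by
    intro p hp
    obtain ⟨h, -, hp'⟩ := mem_biUnion.1 hp
    exact (mem_filter.1 hp').1
  have hinc : ∀ p : ℝ × ℝ, ∀ h ∈ R, (Inc p h ↔ p.2 = - h.2) := by
    intro p h hh
    unfold Inc
    rw [hR0 h hh, zero_mul]
    constructor <;> intro h1 <;> linarith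
  have hRinj : ∀ h ∈ R, ∀ h' ∈ R, h.2 = h'.2 → h = h' := by
    intro h hh h' hh' he
    exact Prod.ext (by rw [hR0 h hh, hR0 h' hh']) he
  have hQc : Q.card = r * (K + 1) := by
    rw [card_biUnion, sum_congr rfl (fun h hh => H.hLk h (hR1 h hh))]
    · rw [sum_const, hRr, smul_eq_mul]
    · intro h hh h' hh' hne
      rw [Function.onFun, disjoint_left]
      intro p hp hp'
      apply hne
      apply hRinj h hh h' hh'
      have h1 := (hinc p h hh).1 (mem_filter.1 hp).2
      have h2 := (hinc p h' hh').1 (mem_filter.1 hp').2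
      linarith
  -- index types
  let f : (P × Fin K) ⊕ R → ℝ × ℝ :=
    Sum.elim (fun z => (β z.2 * z.1.1.1, z.1.1.2 + β z.2)) (fun h => (0, - h.1.2))
  let g : ((L \ R : Finset (ℝ × ℝ)) × Fin K) ⊕ Q → ℝ × ℝ :=
    Sum.elim (fun z => (z.1.1.1 / β z.2, z.1.1.2 - β z.2)) (fun p => (1 / p.1.1, - p.1.2))
  have hf : Function.Injective f := by
    rintro (⟨⟨p, hp⟩, i⟩ | ⟨h, hh⟩) (⟨⟨q, hq⟩, j⟩ | ⟨h', hh'⟩) he
    · simp only [f, Sum.elim_inl, Prod.mk.injEq] at he
      by_cases hij : i = j
      · subst hij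
        have h1 := mul_left_cancel₀ (hβ i).ne' he.1
        have h2 : p.2 = q.2 := by linarith [he.2]
        have : p = q := Prod.ext h1 h2
        subst this
        rfl
      · exfalso
        exact c4 i j hij q hq p hp (by linarith [he.2])
    · simp only [f, Sum.elim_inl, Sum.elim_inr, Prod.mk.injEq] at he
      exact absurd he.1 (mul_ne_zero (hβ i).ne' (hx p hp))
    · simp only [f, Sum.elim_inl, Sum.elim_inr, Prod.mk.injEq] at he
      exact absurd he.1.symm (mul_ne_zero (hβ j).ne' (hx q hq))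
    · simp only [f, Sum.elim_inr, Prod.mk.injEq] at he
      have : h = h' := hRinj h hh h' hh' (by linarith [he.2])
      subst this
      rfl
  have hg : Function.Injective g := by
    rintro (⟨⟨l, hl⟩, i⟩ | ⟨p, hp⟩) (⟨⟨l', hl'⟩, j⟩ | ⟨q, hq⟩) he
    · have hlL := (mem_sdiff.1 hl).1
      have hlL' := (mem_sdiff.1 hl').1
      simp only [g, Sum.elim_inl, Prod.mk.injEq] at he
      by_cases hij : i = j
      · subst hij
        have h1 := (div_left_inj' (hβ i).ne').1 he.1
        have h2 : l.2 = l'.2 := by linarith [he.2]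
        have : l = l' := Prod.ext h1 h2
        subst this
        rfl
      · exfalso
        exact c5 i j hij l hlL l' hlL' (by linarith [he.2])
    · simp only [g, Sum.elim_inl, Sum.elim_inr, Prod.mk.injEq] at he
      exact absurd (by linarith [he.2]) (c6 i l (mem_sdiff.1 hl).1 q (hQP q hq))
    · simp only [g, Sum.elim_inl, Sum.elim_inr, Prod.mk.injEq] at he
      exact absurd (by linarith [he.2]) (c6 j l' (mem_sdiff.1 hl').1 p (hQP p hp))
    · simp only [g, Sum.elim_inr, Prod.mk.injEq] at he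
      have h1 : p.1 = q.1 := by
        have := he.1
        rwa [one_div, one_div, inv_inj] at this
      have h2 : p.2 = q.2 := by linarith [he.2]
      have : p = q := Prod.ext h1 h2
      subst this
      rfl
  -- incidences
  have i1 : ∀ (p : P) (i : Fin K) (l : (L \ R : Finset (ℝ × ℝ))) (j : Fin K),
      Inc (f (Sum.inl (p, i))) (g (Sum.inl (l, j))) ↔ (i = j ∧ Inc p.1 l.1) := by
    rintro ⟨p, hp⟩ i ⟨l, hl⟩ j
    have hlL := (mem_sdiff.1 hl).1
    simp only [f, g, Sum.elim_inl, Inc]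
    have hj := (hβ j).ne'
    constructor
    · intro h
      have h1 : (p.2 + l.2 + β i - β j) * β j = l.1 * p.1 * β i := by
        have : p.2 + l.2 + β i - β j = l.1 / β j * (β i * p.1) := by linarith
        rw [this]
        field_simp
      by_cases hij : j = i
      · subst hij
        refine ⟨rfl, ?_⟩
        have h2 : (p.2 + l.2) * β j = (l.1 * p.1) * β j := by linarith
        exact mul_right_cancel₀ hj h2
      · exact absurd h1 (c1 j i hij p hp l hlL)
    · rintro ⟨rfl, h⟩
      have h3 : l.1 / β i * (β i * p.1) = l.1 * p.1 := by field_simp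
      rw [h3, ← h]
      ring
  have i2 : ∀ (p : P) (i : Fin K) (q : Q),
      Inc (f (Sum.inl (p, i))) (g (Sum.inr q)) ↔ p.1 = q.1 := by
    rintro ⟨p, hp⟩ i ⟨q, hq⟩
    have hqP := hQP q hq
    have hq0 := hx q hqP
    simp only [f, g, Sum.elim_inl, Sum.elim_inr, Inc]
    constructor
    · intro h
      have h1 : (p.2 - q.2) * q.1 = β i * (p.1 - q.1) := by
        have h2 : p.2 + β i + -q.2 = β i * p.1 / q.1 := by rw [h]; field_simp
        rw [eq_div_iff hq0] at h2
        linarith
      by_cases hpq : p.1 = q.1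
      · rw [hpq, sub_self, mul_zero] at h1
        have h2 := (mul_eq_zero.1 h1).resolve_right hq0
        exact Prod.ext hpq (by linarith)
      · exfalso
        have h3 : p.1 - q.1 ≠ 0 := sub_ne_zero.2 hpq
        apply c2 i p hp q hqP
        rw [eq_div_iff h3]
        exact h1.symm
    · intro h
      rw [h]
      field_simp
      ring
  have i3 : ∀ (h : R) (l : (L \ R : Finset (ℝ × ℝ))) (j : Fin K),
      ¬ Inc (f (Sum.inr h)) (g (Sum.inl (l, j))) := by
    rintro ⟨h, hh⟩ ⟨l, hl⟩ j hi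
    simp only [f, g, Sum.elim_inl, Sum.elim_inr, Inc, mul_zero] at hi
    exact c3 j l (mem_sdiff.1 hl).1 h (hR1 h hh) (by linarith)
  have i4 : ∀ (h : R) (q : Q), Inc (f (Sum.inr h)) (g (Sum.inr q)) ↔ Inc q.1 h.1 := by
    rintro ⟨h, hh⟩ ⟨q, hq⟩
    rw [hinc q h hh]
    simp only [f, g, Sum.elim_inr, Inc, mul_zero]
    constructor <;> intro h1 <;> linarith
  have cP : Fintype.card P = m := by rw [Fintype.card_coe, H.hP]
  have cLR : (L \ R).card = m - r := by
    rw [card_sdiff_of_subset (fun h hh => hR1 h hh), H.hL, hRr]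
  have hrm : r ≤ m := by
    rw [← H.hL, ← hRr]
    exact card_le_card (fun h hh => hR1 h hh)
  refine ⟨_, _, Cfg.of_indexed f g hf hg ?_ ?_ ?_ ?_⟩
  · rw [Fintype.card_sum, Fintype.card_prod, cP, Fintype.card_fin, Fintype.card_coe, hRr]; ring
  · rw [Fintype.card_sum, Fintype.card_prod, Fintype.card_fin, Fintype.card_coe,
      Fintype.card_coe, cLR, hQc]
    obtain ⟨d, rfl⟩ := Nat.exists_eq_add_of_le hrm
    rw [Nat.add_sub_cancel_left]
    ring
  · rintro (⟨p, i⟩ | h)
    · rw [card_filter, Fintype.sum_sum_type, Fintype.sum_prod_type]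
      simp only [i1, i2]
      have e1 : ∑ x : (L \ R : Finset (ℝ × ℝ)), ∑ y : Fin K,
          (if (i = y ∧ Inc p.1 x.1) then 1 else 0) = ((L \ R).filter (fun l => Inc p.1 l)).card := by
        have e2 : ∀ x : (L \ R : Finset (ℝ × ℝ)), ∑ y : Fin K,
            (if (i = y ∧ Inc p.1 x.1) then 1 else 0) = (if Inc p.1 x.1 then 1 else 0) := by
          intro x
          by_cases hx : Inc p.1 x.1 <;> simp [hx]
        rw [sum_congr rfl (fun x _ => e2 x)]
        rw [sum_coe_sort (L \ R) (fun x => if Inc p.1 x then 1 else 0), ← card_filter]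
      have e3 : ∑ x : Q, (if p.1 = x.1 then 1 else 0) = (R.filter (fun l => Inc p.1 l)).card := by
        rw [sum_coe_sort Q (fun x => if p.1 = x then 1 else 0), sum_ite_eq]
        by_cases hpQ : p.1 ∈ Q
        · rw [if_pos hpQ]
          obtain ⟨h, hhR, hph⟩ := mem_biUnion.1 hpQ
          have : R.filter (fun l => Inc p.1 l) = {h} := by
            ext l
            rw [mem_filter, mem_singleton]
            constructor
            · rintro ⟨hl, hpl⟩
              apply hRinj l hl h hhR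
              have h1 := (hinc p.1 l hl).1 hpl
              have h2 := (hinc p.1 h hhR).1 (mem_filter.1 hph).2
              linarith
            · rintro rfl
              exact ⟨hhR, (mem_filter.1 hph).2⟩
          rw [this, card_singleton]
        · rw [if_neg hpQ]
          symm
          rw [card_eq_zero, filter_eq_empty_iff]
          intro h hh hi
          exact hpQ (mem_biUnion.2 ⟨h, hh, mem_filter.2 ⟨p.2, hi⟩⟩)
      rw [e1, e3, ← card_union_of_disjoint, ← filter_union,
        sdiff_union_of_subset (fun h hh => hR1 h hh)]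
      · exact H.hPk p.1 p.2
      · exact disjoint_filter_filter (sdiff_disjoint)
    · rw [card_filter, Fintype.sum_sum_type, Fintype.sum_prod_type]
      simp only [i3, i4]
      simp only [if_false, sum_const_zero, zero_add]
      rw [sum_coe_sort Q (fun x => if Inc x h.1 then 1 else 0), ← card_filter]
      have : Q.filter (fun x => Inc x h.1) = P.filter (fun x => Inc x h.1) := by
        ext x
        rw [mem_filter, mem_filter]
        constructor
        · rintro ⟨h1, h2⟩
          exact ⟨hQP x h1, h2⟩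
        · rintro ⟨h1, h2⟩
          exact ⟨mem_biUnion.2 ⟨h.1, h.2, mem_filter.2 ⟨h1, h2⟩⟩, h2⟩
      rw [this]
      exact H.hLk h.1 (hR1 h.1 h.2)
  · rintro (⟨l, i⟩ | q)
    · rw [card_filter, Fintype.sum_sum_type, Fintype.sum_prod_type]
      simp only [i1, i3]
      have e1 : ∑ x : P, ∑ y : Fin K, (if (y = i ∧ Inc x.1 l.1) then 1 else 0) = K + 1 := by
        have e2 : ∀ x : P, ∑ y : Fin K, (if (y = i ∧ Inc x.1 l.1) then 1 else 0)
            = (if Inc x.1 l.1 then 1 else 0) := by
          intro x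
          by_cases hx : Inc x.1 l.1 <;> simp [hx]
        rw [sum_congr rfl (fun x _ => e2 x)]
        rw [sum_coe_sort P (fun x => if Inc x l.1 then 1 else 0), ← card_filter]
        exact H.hLk l.1 (mem_sdiff.1 l.2).1
      rw [e1]
      simp
    · rw [card_filter, Fintype.sum_sum_type, Fintype.sum_prod_type]
      simp only [i2, i4]
      have e1 : ∑ x : P, ∑ _y : Fin K, (if x.1 = q.1 then 1 else 0) = K := by
        simp only [sum_const, card_univ, Fintype.card_fin, smul_eq_mul]
        rw [← mul_sum, sum_coe_sort P (fun x => if x = q.1 then 1 else 0), sum_ite_eq',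
          if_pos (hQP q.1 q.2), mul_one]
      have e2 : ∑ x : R, (if Inc q.1 x.1 then 1 else 0) = 1 := by
        rw [sum_coe_sort R (fun x => if Inc q.1 x then 1 else 0), ← card_filter]
        obtain ⟨h, hhR, hph⟩ := mem_biUnion.1 q.2
        have : R.filter (fun l => Inc q.1 l) = {h} := by
          ext l
          rw [mem_filter, mem_singleton]
          constructor
          · rintro ⟨hl, hpl⟩
            apply hRinj l hl h hhR
            have h1 := (hinc q.1 l hl).1 hpl
            have h2 := (hinc q.1 h hhR).1 (mem_filter.1 hph).2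
            linarith
          · rintro rfl
            exact ⟨hhR, (mem_filter.1 hph).2⟩
        rw [this, card_singleton]
      rw [e1, e2]

end H5NK
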